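import Mathlib

set_option autoImplicit false

namespace Pool.Agent.Work.MP_e5ffe1_h93

/-- characteristic functions -/
noncomputable def ch (X : Set ℕ) : ℕ → ℕ := X.indicator (fun _ => 1)

theorem ch_of_mem {X : Set ℕ} {n : ℕ} (h : n ∈ X) : ch X n = 1 := Set.indicator_of_mem h _
theorem ch_of_notMem {X : Set ℕ} {n : ℕ} (h : n ∉ X) : ch X n = 0 := Set.indicator_of_notMem h _

/-- total functions recursive in a set of oracles -/
def TR (O : Set (ℕ →. ℕ)) (f : ℕ → ℕ) : Prop := Nat.RecursiveIn O (fun n => Part.some (f n))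

namespace TR

variable {O : Set (ℕ →. ℕ)} {f g : ℕ → ℕ}

theorem of_eq (hf : TR O f) (h : ∀ n, f n = g n) : TR O g := by
  have : f = g := funext h
  rw [← this]; exact hf

theorem comp (hf : TR O f) (hg : TR O g) : TR O (fun n => f (g n)) := by
  refine (Nat.RecursiveIn.comp hf hg).of_eq (fun n => ?_)
  exact Part.bind_some _ _

theorem pair (hf : TR O f) (hg : TR O g) : TR O (fun n => Nat.pair (f n) (g n)) := by
  refine (Nat.RecursiveIn.pair hf hg).of_eq (fun n => ?_)
  simp [Seq.seq]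

theorem left : TR O (fun n => (Nat.unpair n).1) := Nat.RecursiveIn.left
theorem right : TR O (fun n => (Nat.unpair n).2) := Nat.RecursiveIn.right

theorem of_primrec (hf : Nat.Primrec f) : TR O f := by
  have := (Nat.Partrec.of_primrec hf).recursiveIn (O := O)
  exact this

theorem const (c : ℕ) : TR O (fun _ => c) := of_primrec (Nat.Primrec.const c)

theorem id : TR O (fun n => n) := of_primrec Nat.Primrec.id

theorem rec0 (c : ℕ) (hg : TR O g) : TR O (fun n => Nat.rec (motive := fun _ => ℕ) c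
    (fun y i => g (Nat.pair y i)) n) := by
  have h1 : TR O (fun n => g (Nat.unpair n).2) := hg.comp right
  have h2 := Nat.RecursiveIn.prec (const (O := O) c) h1
  have h3 : TR O (fun p => Nat.rec (motive := fun _ => ℕ) c
    (fun y i => g (Nat.pair y i)) (Nat.unpair p).2) := by
    refine h2.of_eq (fun p => ?_)
    dsimp only
    generalize (Nat.unpair p).2 = n
    generalize (Nat.unpair p).1 = b
    induction n with
    | zero => rfl
    | succ n ih =>
      simp only [ih]
      simp
  have h4 := h3.comp ((const (O := O) 0).pair id)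
  refine h4.of_eq (fun n => ?_)
  simp

theorem find (hf : TR O f) (q : ℕ → ℕ) (hq : ∀ a n, f (Nat.pair a n) = 0 ↔ n = q a) : TR O q := by
  refine (Nat.RecursiveIn.rfind hf).of_eq (fun a => ?_)
  rw [Part.eq_some_iff]
  refine Nat.mem_rfind.2 ⟨?_, ?_⟩
  · simp [hq]
  · intro m hm
    simp [hq]
    omega

end TR

/-- Turing reducibility of sets, as in the problem. -/
def le (X Y : Set ℕ) : Prop :=
  TuringReducible (fun n => Part.some (X.indicator (fun _ => (1 : ℕ)) n))
    (fun n => Part.some (Y.indicator (fun _ => (1 : ℕ)) n))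

/-- the oracle -/
noncomputable def orc (Y : Set ℕ) : Set (ℕ →. ℕ) := {fun n => Part.some (Y.indicator (fun _ => (1 : ℕ)) n)}

theorem le_iff {X Y : Set ℕ} : le X Y ↔ TR (orc Y) (ch X) := RecursiveIn.iff_nat

theorem orc_self (Y : Set ℕ) : TR (orc Y) (ch Y) := Nat.RecursiveIn.oracle _ rfl

theorem le_refl' (X : Set ℕ) : le X X := TuringReducible.refl _
theorem le_trans' {X Y Z : Set ℕ} (h : le X Y) (h' : le Y Z) : le X Z := TuringReducible.trans h h'

/-- The join. -/
def J (X Y : Set ℕ) : Set ℕ := {m : ℕ | (Even m ∧ m / 2 ∈ X) ∨ (Odd m ∧ m / 2 ∈ Y)}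

theorem two_mul_mem_J {X Y : Set ℕ} {n : ℕ} : 2 * n ∈ J X Y ↔ n ∈ X := by
  unfold J
  constructor
  · rintro (⟨_, h⟩ | ⟨h, _⟩)
    · rwa [Nat.mul_div_cancel_left n (by norm_num : 0 < 2)] at h
    · exact absurd h (by rw [Nat.not_odd_iff_even]; exact even_two_mul n)
  · intro h
    left
    refine ⟨even_two_mul n, ?_⟩
    rwa [Nat.mul_div_cancel_left n (by norm_num : 0 < 2)]

theorem two_mul_add_one_mem_J {X Y : Set ℕ} {n : ℕ} : 2 * n + 1 ∈ J X Y ↔ n ∈ Y := by
  unfold J
  have e : (2 * n + 1) / 2 = n := by omega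
  constructor
  · rintro (⟨h, _⟩ | ⟨_, h⟩)
    · exact absurd h (by rw [Nat.not_even_iff_odd]; exact odd_two_mul_add_one n)
    · rwa [e] at h
  · intro h
    right
    refine ⟨odd_two_mul_add_one n, ?_⟩
    rwa [e]

theorem le_J_left (X Y : Set ℕ) : le X (J X Y) := by
  rw [le_iff]
  have h1 : TR (orc (J X Y)) (fun n => 2 * n) := TR.of_primrec (by
    have := (Primrec.nat_mul.comp (Primrec.const 2) Primrec.id)
    exact Primrec.nat_iff.1 this)
  refine ((orc_self (J X Y)).comp h1).of_eq (fun n => ?_)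
  by_cases h : n ∈ X
  · rw [ch_of_mem h, ch_of_mem (two_mul_mem_J.2 h)]
  · rw [ch_of_notMem h, ch_of_notMem (fun h' => h (two_mul_mem_J.1 h'))]

theorem le_J_right (X Y : Set ℕ) : le Y (J X Y) := by
  rw [le_iff]
  have h1 : TR (orc (J X Y)) (fun n => 2 * n + 1) := TR.of_primrec (by
    have := (Primrec.succ.comp (Primrec.nat_mul.comp (Primrec.const 2) Primrec.id))
    exact Primrec.nat_iff.1 this)
  refine ((orc_self (J X Y)).comp h1).of_eq (fun n => ?_)
  by_cases h : n ∈ Y
  · rw [ch_of_mem h, ch_of_mem (two_mul_add_one_mem_J.2 h)]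
  · rw [ch_of_notMem h, ch_of_notMem (fun h' => h (two_mul_add_one_mem_J.1 h'))]

theorem le_univ (Y : Set ℕ) : le Set.univ Y := by
  rw [le_iff]
  exact (TR.const 1).of_eq (fun n => (ch_of_mem (Set.mem_univ n)).symm)

/-- restriction codes -/
def rs (x : ℕ → Bool) : ℕ → ℕ
  | 0 => 0
  | k + 1 => 2 * rs x k + (if x k then 1 else 0)

/-- the set of a branch -/
def st (x : ℕ → Bool) : Set ℕ := {n | x n = true}

theorem ch_st (x : ℕ → Bool) (n : ℕ) : ch (st x) n = if x n then 1 else 0 := by
  by_cases h : x n = true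
  · rw [ch_of_mem h, if_pos h]
  · rw [ch_of_notMem h, if_neg h]

theorem rs_TR {O : Set (ℕ →. ℕ)} {x : ℕ → Bool} (h : TR O (ch (st x))) : TR O (rs x) := by
  have h1 : TR O (fun p => 2 * (Nat.unpair p).2) := (TR.of_primrec (by
    have := (Primrec.nat_mul.comp (Primrec.const 2) Primrec.id)
    exact Primrec.nat_iff.1 this)).comp TR.right
  have hadd : TR O (fun p => (Nat.unpair p).1 + (Nat.unpair p).2) := TR.of_primrec Nat.Primrec.add
  have h2 : TR O (fun p => 2 * (Nat.unpair p).2 + ch (st x) (Nat.unpair p).1) := by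
    refine (hadd.comp (h1.pair (h.comp TR.left))).of_eq (fun n => ?_)
    simp
  refine (TR.rec0 0 h2).of_eq (fun n => ?_)
  induction n with
  | zero => rfl
  | succ n ih =>
    simp only [Nat.unpair_pair] at ih ⊢
    rw [ih, ch_st, rs]

theorem bits_aux (a b : ℕ) (x y : Bool)
    (h : 2 * a + (if x then 1 else 0) = 2 * b + (if y then 1 else 0)) : a = b ∧ x = y := by
  cases x <;> cases y
  · have h' : 2 * a + 0 = 2 * b + 0 := h
    exact ⟨by omega, rfl⟩
  · have h' : 2 * a + 0 = 2 * b + 1 := h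
    omega
  · have h' : 2 * a + 1 = 2 * b + 0 := h
    omega
  · have h' : 2 * a + 1 = 2 * b + 1 := h
    exact ⟨by omega, rfl⟩

theorem rs_inj {x y : ℕ → Bool} (k : ℕ) (h : rs x k = rs y k) : ∀ j < k, x j = y j := by
  induction k with
  | zero => intro j hj; omega
  | succ k ih =>
    rw [rs, rs] at h
    have h1 : rs x k = rs y k ∧ x k = y k := bits_aux _ _ _ _ h
    intro j hj
    rcases Nat.lt_succ_iff_lt_or_eq.1 hj with h2 | h2
    · exact ih h1.1 j h2
    · subst h2
      exact h1.2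

/-- codes of tuples -/
def tp : (r : ℕ) → (Fin r → ℕ) → ℕ
  | 0, _ => 0
  | r + 1, c => Nat.pair (c 0) (tp r (fun i => c i.succ))

theorem tp_inj (r : ℕ) : ∀ c d : Fin r → ℕ, tp r c = tp r d → c = d := by
  induction r with
  | zero => intro c d _; exact Subsingleton.elim _ _
  | succ r ih =>
    intro c d h
    rw [tp, tp, Nat.pair_eq_pair] at h
    funext i
    refine Fin.cases h.1 (fun j => ?_) i
    exact congrFun (ih _ _ h.2) j

theorem tp_TR {O : Set (ℕ →. ℕ)} (r : ℕ) : ∀ c : Fin r → ℕ → ℕ, (∀ i, TR O (c i)) →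
    TR O (fun j => tp r (fun i => c i j)) := by
  induction r with
  | zero => intro c _; exact TR.const 0
  | succ r ih =>
    intro c hc
    exact (hc 0).pair (ih (fun i => c i.succ) (fun i => hc i.succ))

end Pool.Agent.Work.MP_e5ffe1_h93
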