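import Pool.Agent.Work.MP_e5ffe1_lc_helper93.Model

set_option autoImplicit false

namespace Pool.Agent.Work.MP_e5ffe1_h93

open FirstOrder FirstOrder.Language FirstOrder.Ring Filter

attribute [local instance] zRing zOrd zSk rRing rOrd

/-- Sets definable with parameters are given by formulas with finitely many parameters. -/
theorem def_repr {R : Type} [LL.Structure R] [Nonempty R] {D : Set (Fin 1 → R)}
    (hD : (Set.univ : Set R).Definable LL D) :
    ∃ (m : ℕ) (φ : LL.BoundedFormula Empty (m + 1)) (b : Fin m → R),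
      ∀ x : R, (fun _ : Fin 1 => x) ∈ D ↔ φ.Realize default (Fin.snoc b x : Fin (m + 1) → R) := by
  classical
  rw [Set.definable_iff_exists_formula_sum] at hD
  obtain ⟨φ, rfl⟩ := hD
  let F := φ.freeVarFinset
  let e := F.equivFin
  let f : F → Fin (F.card + 1) := fun v => Sum.elim (fun _ => Fin.castSucc (e v)) (fun _ => Fin.last _) v.1
  let φ1 : LL.BoundedFormula (Fin (F.card + 1)) 0 := BoundedFormula.restrictFreeVar φ f
  let φ2 : LL.BoundedFormula Empty (F.card + 1) :=
    φ1.relabel (fun i => (Sum.inr i : Empty ⊕ Fin (F.card + 1)))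
  let b : Fin F.card → R := fun i =>
    Sum.elim (fun y : (Set.univ : Set R) => y.1) (fun _ => Classical.arbitrary R) (e.symm i).1
  refine ⟨F.card, φ2, b, fun x => ?_⟩
  have h1 : φ2.Realize default (Fin.snoc b x : Fin (F.card + 1) → R) ↔
      φ1.Realize (Fin.snoc b x : Fin (F.card + 1) → R) default := by
    have := BoundedFormula.realize_relabel (φ := φ1)
      (g := fun i => (Sum.inr i : Empty ⊕ Fin (F.card + 1))) (v := (default : Empty → R))
      (xs := (Fin.snoc b x : Fin (F.card + 1) → R))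
    refine this.trans ?_
    have e1 : ((Fin.snoc b x : Fin (F.card + 1) → R) ∘ Fin.natAdd (F.card + 1) : Fin 0 → R) = default :=
      Subsingleton.elim _ _
    rw [e1]
    rfl
  rw [h1]
  have h2 := BoundedFormula.realize_restrictFreeVar (φ := φ) (f := f)
    (v := (Fin.snoc b x : Fin (F.card + 1) → R)) (xs := (default : Fin 0 → R))
    (Sum.elim (fun y : (Set.univ : Set R) => y.1) (fun _ : Fin 1 => x)) (by
      rintro ⟨v, hv⟩
      rcases v with v | v
      · change (Fin.snoc b x : Fin (F.card + 1) → R) (Fin.castSucc (e ⟨Sum.inl v, hv⟩)) = v.1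
        rw [Fin.snoc_castSucc]
        change Sum.elim (fun y : (Set.univ : Set R) => y.1) (fun _ => Classical.arbitrary R)
          (e.symm (e ⟨Sum.inl v, hv⟩)).1 = v.1
        rw [Equiv.symm_apply_apply]
        rfl
      · change (Fin.snoc b x : Fin (F.card + 1) → R) (Fin.last _) = x
        rw [Fin.snoc_last])
  rw [h2]
  rfl

variable {I : Type} (a : ℕ → I → ℤ)

theorem rr_discrete (x : RR a) (hx : 0 < x) : 1 ≤ x := by
  obtain ⟨t, rfl⟩ := toR_surj a x
  have h0 : (0 : RR a) = toR a tzero := rfl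
  have h1 : (1 : RR a) = toR a tone := rfl
  rw [h0, toR_lt] at hx
  rw [h1, toR_le]
  refine hx.mono (fun n hn => ?_)
  rw [real_zero] at hn
  rw [real_one]
  omega

/-- the formula expressing `t ≤ s` -/
def ble {m : ℕ} (t s : LL.Term (Empty ⊕ Fin m)) : LL.BoundedFormula Empty m :=
  BoundedFormula.rel (l := 2) (Sum.inr orderRel.le : LL.Relations 2) ![t, s]

theorem real_ble {m : ℕ} (t s : LL.Term (Empty ⊕ Fin m)) (xs : Fin m → ℤ) :
    (ble t s).Realize (M := ℤ) default xs ↔
      t.realize (Sum.elim default xs) ≤ s.realize (Sum.elim default xs) := Iff.rfl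

/-- the constant zero -/
def zt {m : ℕ} : LL.Term (Empty ⊕ Fin m) := Term.func (l := 0) (Sum.inl ringFunc.zero : LL.Functions 0) ![]

theorem real_zt {m : ℕ} (v : Empty ⊕ Fin m → ℤ) : (zt : LL.Term (Empty ⊕ Fin m)).realize v = 0 := rfl

/-- the least nonnegative element outside -/
noncomputable def leastOut {m : ℕ} (φ : LL.BoundedFormula Empty (m + 1)) : LL.BoundedFormula Empty (m + 1) :=
  (∼φ) ⊓ ((ble zt (Term.var (Sum.inr (Fin.last m)))) ⊓
    (∀' ((ble zt (Term.var (Sum.inr (Fin.last (m + 1))))) ⟹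
      ((∼(ble (Term.var (Sum.inr (Fin.castSucc (Fin.last m)))) (Term.var (Sum.inr (Fin.last (m + 1)))))) ⟹
        φ.liftAt 1 m))))

theorem real_leastOut {m : ℕ} (φ : LL.BoundedFormula Empty (m + 1)) (b : Fin m → ℤ) (y : ℤ) :
    (leastOut φ).Realize (M := ℤ) default (Fin.snoc b y : Fin (m + 1) → ℤ) ↔
      (¬ φ.Realize (M := ℤ) default (Fin.snoc b y : Fin (m + 1) → ℤ)) ∧ 0 ≤ y ∧
        ∀ z : ℤ, 0 ≤ z → z < y → φ.Realize (M := ℤ) default (Fin.snoc b z : Fin (m + 1) → ℤ) := by
  unfold leastOut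
  rw [BoundedFormula.realize_inf, BoundedFormula.realize_inf, BoundedFormula.realize_not]
  have e1 : (ble zt (Term.var (Sum.inr (Fin.last m)))).Realize (M := ℤ) default
      (Fin.snoc b y : Fin (m + 1) → ℤ) ↔ 0 ≤ y := by
    rw [real_ble, real_zt, Term.realize_var]
    change 0 ≤ (Fin.snoc b y : Fin (m + 1) → ℤ) (Fin.last m) ↔ _
    rw [Fin.snoc_last]
  rw [e1, BoundedFormula.realize_all]
  have e2 : ∀ z : ℤ, ((ble zt (Term.var (Sum.inr (Fin.last (m + 1))))) ⟹
      ((∼(ble (Term.var (Sum.inr (Fin.castSucc (Fin.last m)))) (Term.var (Sum.inr (Fin.last (m + 1)))))) ⟹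
        φ.liftAt 1 m)).Realize (M := ℤ) default (Fin.snoc (Fin.snoc b y : Fin (m + 1) → ℤ) z) ↔
      (0 ≤ z → z < y → φ.Realize (M := ℤ) default (Fin.snoc b z : Fin (m + 1) → ℤ)) := by
    intro z
    rw [BoundedFormula.realize_imp, BoundedFormula.realize_imp, BoundedFormula.realize_not, real_ble,
      real_ble, real_zt, Term.realize_var, Term.realize_var]
    have f1 : Sum.elim (default : Empty → ℤ) (Fin.snoc (Fin.snoc b y : Fin (m + 1) → ℤ) z : Fin (m + 1 + 1) → ℤ)
        (Sum.inr (Fin.last (m + 1))) = z := by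
      change (Fin.snoc (Fin.snoc b y : Fin (m + 1) → ℤ) z : Fin (m + 1 + 1) → ℤ) (Fin.last (m + 1)) = z
      rw [Fin.snoc_last]
    have f2 : Sum.elim (default : Empty → ℤ) (Fin.snoc (Fin.snoc b y : Fin (m + 1) → ℤ) z : Fin (m + 1 + 1) → ℤ)
        (Sum.inr (Fin.castSucc (Fin.last m))) = y := by
      change (Fin.snoc (Fin.snoc b y : Fin (m + 1) → ℤ) z : Fin (m + 1 + 1) → ℤ) (Fin.castSucc (Fin.last m)) = y
      rw [Fin.snoc_castSucc, Fin.snoc_last]
    rw [f1, f2, not_le]
    have f3 : (φ.liftAt 1 m).Realize (M := ℤ) default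
        (Fin.snoc (Fin.snoc b y : Fin (m + 1) → ℤ) z : Fin (m + 1 + 1) → ℤ) ↔
        φ.Realize (M := ℤ) default (Fin.snoc b z : Fin (m + 1) → ℤ) := by
      rw [BoundedFormula.realize_liftAt_one (Nat.le_succ m)]
      have f4 : ((Fin.snoc (Fin.snoc b y : Fin (m + 1) → ℤ) z : Fin (m + 1 + 1) → ℤ) ∘
          fun i : Fin (m + 1) => if (i : ℕ) < m then Fin.castSucc i else i.succ) =
          (Fin.snoc b z : Fin (m + 1) → ℤ) := by
        funext i
        refine Fin.lastCases ?_ (fun j => ?_) i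
        · simp only [Function.comp_apply, Fin.val_last, lt_irrefl, if_false, Fin.succ_last, Fin.snoc_last]
        · simp only [Function.comp_apply, Fin.val_castSucc, j.2, if_true, Fin.snoc_castSucc]
      rw [f4]
    rw [f3]
  simp only [e2]

theorem rr_induction (D : Set (Fin 1 → RR a)) (hD : (Set.univ : Set (RR a)).Definable LL D)
    (h0 : (fun _ : Fin 1 => (0 : RR a)) ∈ D)
    (hs : ∀ x : RR a, 0 ≤ x → (fun _ : Fin 1 => x) ∈ D → (fun _ : Fin 1 => x + 1) ∈ D) :
    ∀ x : RR a, 0 ≤ x → (fun _ : Fin 1 => x) ∈ D := by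
  classical
  obtain ⟨m, φ, b, hb⟩ := def_repr hD
  by_contra hcon
  push Not at hcon
  obtain ⟨x, hx0, hx⟩ := hcon
  have hT : ∀ i, ∃ t, b i = toR a t := fun i => toR_surj a (b i)
  choose T hT using hT
  obtain ⟨tx, rfl⟩ := toR_surj a x
  have hbT : b = fun i => toR a (T i) := funext hT
  have hsn : ∀ t : LS.Term I, (Fin.snoc b (toR a t) : Fin (m + 1) → RR a) =
      fun i => toR a ((Fin.snoc T t : Fin (m + 1) → LS.Term I) i) := by
    intro t
    funext i
    refine Fin.lastCases ?_ (fun j => ?_) i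
    · simp only [Fin.snoc_last]
    · simp only [Fin.snoc_castSucc, hT]
  have hsn' : ∀ (t : LS.Term I) (v : I → ℤ),
      (fun i => ((Fin.snoc T t : Fin (m + 1) → LS.Term I) i).realize v) =
      (Fin.snoc (fun i => (T i).realize v) (t.realize v) : Fin (m + 1) → ℤ) := by
    intro t v
    funext i
    refine Fin.lastCases ?_ (fun j => ?_) i
    · simp only [Fin.snoc_last]
    · simp only [Fin.snoc_castSucc]
  have hmem : ∀ t : LS.Term I, (fun _ : Fin 1 => toR a t) ∈ D ↔
      ∀ᶠ n in (hyperfilter ℕ : Filter ℕ), φ.Realize (M := ℤ) default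
        (Fin.snoc (fun i => (T i).realize (a n)) (t.realize (a n)) : Fin (m + 1) → ℤ) := by
    intro t
    rw [hb, hsn, los]
    simp only [hsn']
  have h0' : (0 : RR a) = toR a tzero := rfl
  rw [h0', hmem] at h0
  rw [hmem, ← Ultrafilter.eventually_not] at hx
  rw [h0', toR_le] at hx0
  let h : LS.Term I := Term.func (l := m) (Sum.inr (leastOut φ) : LS.Functions m) T
  have hh : ∀ v, h.realize v = Classical.epsilon (fun y : ℤ => (leastOut φ).Realize default
      (Fin.snoc (fun i => (T i).realize v) y : Fin (m + 1) → ℤ)) := fun v => rfl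
  have hspec : ∀ᶠ n in (hyperfilter ℕ : Filter ℕ), (leastOut φ).Realize (M := ℤ) default
      (Fin.snoc (fun i => (T i).realize (a n)) (h.realize (a n)) : Fin (m + 1) → ℤ) := by
    filter_upwards [hx, hx0] with n hn hn0
    rw [hh]
    apply Classical.epsilon_spec (p := fun y : ℤ => (leastOut φ).Realize default
      (Fin.snoc (fun i => (T i).realize (a n)) y : Fin (m + 1) → ℤ))
    rw [real_zero] at hn0
    have hex : ∃ k : ℕ, ¬ φ.Realize (M := ℤ) default
        (Fin.snoc (fun i => (T i).realize (a n)) (k : ℤ) : Fin (m + 1) → ℤ) := by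
      refine ⟨(tx.realize (a n)).toNat, ?_⟩
      rw [Int.toNat_of_nonneg hn0]
      exact hn
    refine ⟨(Nat.find hex : ℤ), ?_⟩
    change (leastOut φ).Realize (M := ℤ) default
      (Fin.snoc (fun i => (T i).realize (a n)) (Nat.find hex : ℤ) : Fin (m + 1) → ℤ)
    rw [real_leastOut]
    refine ⟨Nat.find_spec hex, Int.natCast_nonneg _, fun z hz hz' => ?_⟩
    have h1 := Nat.find_min hex (m := z.toNat) (by omega)
    rw [not_not, Int.toNat_of_nonneg hz] at h1
    exact h1
  have hle : (0 : RR a) ≤ toR a (tadd h (tneg tone)) := by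
    rw [h0', toR_le]
    filter_upwards [hspec, h0] with n hn hn0
    rw [real_leastOut] at hn
    rw [real_add, real_neg, real_one, real_zero]
    rw [real_zero] at hn0
    have : h.realize (a n) ≠ 0 := by
      intro e
      rw [e] at hn
      exact hn.1 hn0
    have := hn.2.1
    omega
  have hD1 : (fun _ : Fin 1 => toR a (tadd h (tneg tone))) ∈ D := by
    rw [hmem]
    filter_upwards [hspec, h0] with n hn hn0
    rw [real_leastOut] at hn
    rw [real_add, real_neg, real_one]
    rw [real_zero] at hn0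
    have h2 : h.realize (a n) ≠ 0 := by
      intro e
      rw [e] at hn
      exact hn.1 hn0
    have h3 := hn.2.1
    exact hn.2.2 _ (by omega) (by omega)
  have hD2 := hs _ hle hD1
  have e3 : toR a (tadd h (tneg tone)) + 1 = toR a h := by
    have e4 : toR a (tadd h (tneg tone)) + 1 = toR a (tadd (tadd h (tneg tone)) tone) := rfl
    rw [e4, toR_eq]
    refine Eventually.of_forall (fun n => ?_)
    rw [real_add, real_add, real_neg, real_one]
    ring
  rw [e3, hmem] at hD2
  obtain ⟨n, hn1, hn2⟩ := (hD2.and hspec).exists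
  rw [real_leastOut] at hn2
  exact hn2.1 hn1

end Pool.Agent.Work.MP_e5ffe1_h93
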