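import Mathlib

set_option autoImplicit false

namespace Pool.Agent.Work.MP_e5ffe1_h93

open FirstOrder FirstOrder.Language FirstOrder.Ring Filter

/-- The language of ordered rings. -/
abbrev LL : Language := Language.ring.sum Language.order

@[reducible] noncomputable def zRing : CompatibleRing ℤ := compatibleRingOfRing ℤ
@[reducible] def zOrd : Language.order.Structure ℤ := orderStructure ℤ

attribute [local instance] zRing zOrd

/-- The language of Skolem functions. -/
def SK : Language := ⟨fun n => LL.BoundedFormula Empty (n + 1), fun _ => Empty⟩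

/-- Skolem functions on `ℤ`. -/
@[reducible] noncomputable def zSk : SK.Structure ℤ :=
  ⟨fun {n} (φ : LL.BoundedFormula Empty (n + 1)) (x : Fin n → ℤ) =>
    Classical.epsilon (fun a : ℤ => φ.Realize default (Fin.snoc x a : Fin (n + 1) → ℤ)),
    fun {_} (r : Empty) => r.elim⟩

attribute [local instance] zSk

/-- The language of ordered rings with Skolem functions. -/
abbrev LS : Language := LL.sum SK

variable {I : Type}

/-- sums, products, opposites and constants as terms -/
def tadd (t s : LS.Term I) : LS.Term I := Term.func (l := 2) (Sum.inl (Sum.inl ringFunc.add)) ![t, s]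
def tmul (t s : LS.Term I) : LS.Term I := Term.func (l := 2) (Sum.inl (Sum.inl ringFunc.mul)) ![t, s]
def tneg (t : LS.Term I) : LS.Term I := Term.func (l := 1) (Sum.inl (Sum.inl ringFunc.neg)) ![t]
def tzero : LS.Term I := Term.func (l := 0) (Sum.inl (Sum.inl ringFunc.zero)) ![]
def tone : LS.Term I := Term.func (l := 0) (Sum.inl (Sum.inl ringFunc.one)) ![]
def tnat : ℕ → LS.Term I
  | 0 => tzero
  | n + 1 => tadd (tnat n) tone

theorem real_add (t s : LS.Term I) (v : I → ℤ) : (tadd t s).realize v = t.realize v + s.realize v := rfl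
theorem real_mul (t s : LS.Term I) (v : I → ℤ) : (tmul t s).realize v = t.realize v * s.realize v := rfl
theorem real_neg (t : LS.Term I) (v : I → ℤ) : (tneg t).realize v = - t.realize v := rfl
theorem real_zero (v : I → ℤ) : (tzero : LS.Term I).realize v = 0 := rfl
theorem real_one (v : I → ℤ) : (tone : LS.Term I).realize v = 1 := rfl
theorem real_nat (n : ℕ) (v : I → ℤ) : (tnat n : LS.Term I).realize v = n := by
  induction n with
  | zero => rfl
  | succ n ih => rw [tnat, real_add, ih, real_one]; push_cast; ring

/-- The Skolem hull of the family `a` in the ultrapower of `ℤ`. -/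
noncomputable def RR (a : ℕ → I → ℤ) : Subring (Germ (hyperfilter ℕ : Filter ℕ) ℤ) where
  carrier := {x | ∃ t : LS.Term I, x = ((fun n => t.realize (a n) : ℕ → ℤ) : Germ (hyperfilter ℕ : Filter ℕ) ℤ)}
  mul_mem' := by
    rintro _ _ ⟨t, rfl⟩ ⟨s, rfl⟩
    exact ⟨tmul t s, rfl⟩
  one_mem' := ⟨tone, rfl⟩
  add_mem' := by
    rintro _ _ ⟨t, rfl⟩ ⟨s, rfl⟩
    exact ⟨tadd t s, rfl⟩
  zero_mem' := ⟨tzero, rfl⟩
  neg_mem' := by
    rintro _ ⟨t, rfl⟩
    exact ⟨tneg t, rfl⟩

/-- the element given by a term -/
noncomputable def toR (a : ℕ → I → ℤ) (t : LS.Term I) : RR a := ⟨_, t, rfl⟩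

theorem toR_surj (a : ℕ → I → ℤ) (x : RR a) : ∃ t, x = toR a t := by
  obtain ⟨x, t, ht⟩ := x
  exact ⟨t, Subtype.ext ht⟩

theorem toR_eq {a : ℕ → I → ℤ} {t s : LS.Term I} :
    toR a t = toR a s ↔ ∀ᶠ n in (hyperfilter ℕ : Filter ℕ), t.realize (a n) = s.realize (a n) := by
  rw [Subtype.ext_iff]
  exact Germ.coe_eq

theorem toR_le {a : ℕ → I → ℤ} {t s : LS.Term I} :
    toR a t ≤ toR a s ↔ ∀ᶠ n in (hyperfilter ℕ : Filter ℕ), t.realize (a n) ≤ s.realize (a n) := by
  rw [← Subtype.coe_le_coe]
  exact Germ.coe_le

theorem toR_lt {a : ℕ → I → ℤ} {t s : LS.Term I} :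
    toR a t < toR a s ↔ ∀ᶠ n in (hyperfilter ℕ : Filter ℕ), t.realize (a n) < s.realize (a n) := by
  rw [← Subtype.coe_lt_coe]
  exact Germ.coe_lt

theorem toR_nat (a : ℕ → I → ℤ) (n : ℕ) : toR a (tnat n) = (n : RR a) := by
  induction n with
  | zero => rw [Nat.cast_zero]; rfl
  | succ n ih =>
    rw [Nat.cast_succ, ← ih]
    rfl

@[reducible] noncomputable def rRing (a : ℕ → I → ℤ) : CompatibleRing (RR a) := compatibleRingOfRing (RR a)
@[reducible] noncomputable def rOrd (a : ℕ → I → ℤ) : Language.order.Structure (RR a) := orderStructure (RR a)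

attribute [local instance] rRing rOrd

/-- Composition of a term of the language of ordered rings with Skolem terms. -/
noncomputable def tc {m : ℕ} (t : LL.Term (Empty ⊕ Fin m)) (ts : Fin m → LS.Term I) : LS.Term I :=
  ((LHom.sumInl : LL →ᴸ LS).onTerm t).subst (Sum.elim Empty.elim ts)

theorem real_tc {m : ℕ} (t : LL.Term (Empty ⊕ Fin m)) (ts : Fin m → LS.Term I) (v : I → ℤ) :
    (tc t ts).realize v = t.realize (Sum.elim default (fun i => (ts i).realize v)) := by
  unfold tc
  rw [Term.realize_subst, LHom.realize_onTerm]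
  congr 1
  funext x
  rcases x with x | x
  · exact x.elim
  · rfl

theorem toR_tc (a : ℕ → I → ℤ) {m : ℕ} (t : LL.Term (Empty ⊕ Fin m)) (ts : Fin m → LS.Term I) :
    toR a (tc t ts) = t.realize (Sum.elim default (fun i => toR a (ts i))) := by
  induction t with
  | var x =>
    rcases x with x | x
    · exact x.elim
    · rfl
  | @func l f args ih =>
    rcases f with f | f
    · cases f with
      | add =>
        change toR a (tc (args 0) ts) + toR a (tc (args 1) ts) = _
        rw [ih 0, ih 1]; rfl
      | mul =>
        change toR a (tc (args 0) ts) * toR a (tc (args 1) ts) = _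
        rw [ih 0, ih 1]; rfl
      | neg =>
        change - toR a (tc (args 0) ts) = _
        rw [ih 0]; rfl
      | zero => rfl
      | one => rfl
    · exact f.elim

/-- Łoś's theorem for the Skolem hull. -/
theorem los (a : ℕ → I → ℤ) {m : ℕ} (φ : LL.BoundedFormula Empty m) :
    ∀ ts : Fin m → LS.Term I, φ.Realize (M := RR a) default (fun i => toR a (ts i)) ↔
      ∀ᶠ n in (hyperfilter ℕ : Filter ℕ), φ.Realize (M := ℤ) default (fun i => (ts i).realize (a n)) := by
  induction φ with
  | falsum =>
    intro ts
    simp only [BoundedFormula.Realize]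
    constructor
    · intro h; exact h.elim
    · intro h; exact h.exists.choose_spec
  | equal t s =>
    intro ts
    simp only [BoundedFormula.Realize]
    rw [← toR_tc, ← toR_tc, toR_eq]
    simp only [real_tc]
  | @rel m l R args =>
    intro ts
    rcases R with R | R
    · exact R.elim
    · cases R with
      | le =>
        have h1 : (BoundedFormula.rel (Sum.inr orderRel.le : LL.Relations 2) args).Realize (M := RR a) default
            (fun i => toR a (ts i)) ↔ toR a (tc (args 0) ts) ≤ toR a (tc (args 1) ts) := by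
          rw [toR_tc, toR_tc]; rfl
        rw [h1, toR_le]
        simp only [real_tc]
        rfl
  | imp φ ψ ih ih' =>
    intro ts
    simp only [BoundedFormula.Realize]
    rw [ih ts, ih' ts, Ultrafilter.eventually_imp]
  | @all m φ ih =>
    intro ts
    have hsnoc : ∀ (t : LS.Term I), (Fin.snoc (fun i => toR a (ts i)) (toR a t) : Fin (m + 1) → RR a) =
        fun i => toR a ((Fin.snoc ts t : Fin (m + 1) → LS.Term I) i) := by
      intro t
      funext i
      refine Fin.lastCases ?_ (fun j => ?_) i
      · simp only [Fin.snoc_last]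
      · simp only [Fin.snoc_castSucc]
    have hsnoc' : ∀ (t : LS.Term I) (v : I → ℤ),
        (fun i => ((Fin.snoc ts t : Fin (m + 1) → LS.Term I) i).realize v) =
        (Fin.snoc (fun i => (ts i).realize v) (t.realize v) : Fin (m + 1) → ℤ) := by
      intro t v
      funext i
      refine Fin.lastCases ?_ (fun j => ?_) i
      · simp only [Fin.snoc_last]
      · simp only [Fin.snoc_castSucc]
    simp only [BoundedFormula.Realize]
    constructor
    · intro h
      let t : LS.Term I := Term.func (l := m) (Sum.inr (∼φ) : LS.Functions m) ts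
      have h1 := h (toR a t)
      rw [hsnoc t, ih] at h1
      refine h1.mono (fun n hn => ?_)
      rw [hsnoc'] at hn
      by_contra hcon
      push Not at hcon
      have h3 : t.realize (a n) = Classical.epsilon (fun x : ℤ => (∼φ).Realize default
          (Fin.snoc (fun i => (ts i).realize (a n)) x)) := rfl
      have h2 : (∼φ).Realize (M := ℤ) default (Fin.snoc (fun i => (ts i).realize (a n)) (t.realize (a n))) := by
        rw [h3]
        exact Classical.epsilon_spec (p := fun x : ℤ => (∼φ).Realize default
          (Fin.snoc (fun i => (ts i).realize (a n)) x)) (by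
            obtain ⟨x, hx⟩ := hcon
            exact ⟨x, (BoundedFormula.realize_not).2 hx⟩)
      exact (BoundedFormula.realize_not).1 h2 hn
    · intro h x
      obtain ⟨t, rfl⟩ := toR_surj a x
      rw [hsnoc t, ih]
      refine h.mono (fun n hn => ?_)
      rw [hsnoc']
      exact hn _

end Pool.Agent.Work.MP_e5ffe1_h93
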