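import Pool.Agent.Work.MP_e5ffe1_lc_helper93.HJ

set_option autoImplicit false

namespace Pool.Agent.Work.MP_e5ffe1_h93

/-- Level-preserving embeddings of the binary tree, as maps on branches: the first `l n` values of the
image depend only on the first `n` values of the argument, and the value number `n` of the argument is
the value number `lam n` of the image. -/
structure Emb where
  E : (ℕ → Bool) → (ℕ → Bool)
  l : ℕ → ℕ
  lam : ℕ → ℕ
  loc : ∀ n x y, (∀ i < n, x i = y i) → ∀ i < l n, E x i = E y i
  spl : ∀ n x, E x (lam n) = x n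
  lam_lt : ∀ n, lam n < l (n + 1)
  le_lam : ∀ n, l n ≤ lam n

namespace Emb

theorem l_lt (e : Emb) (n : ℕ) : e.l n < e.l (n + 1) := lt_of_le_of_lt (e.le_lam n) (e.lam_lt n)

theorem l_strictMono (e : Emb) : StrictMono e.l := strictMono_nat_of_lt_succ e.l_lt

theorem le_l (e : Emb) (n : ℕ) : n ≤ e.l n := e.l_strictMono.le_apply

/-- The identity. -/
def id : Emb where
  E x := x
  l n := n
  lam n := n
  loc _ _ _ h := h
  spl _ _ := rfl
  lam_lt n := Nat.lt_succ_self n
  le_lam _ := le_refl _

/-- Composition. -/
def comp (e f : Emb) : Emb where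
  E x := e.E (f.E x)
  l n := e.l (f.l n)
  lam n := e.lam (f.lam n)
  loc n x y h := e.loc _ _ _ (f.loc n x y h)
  spl n x := by rw [e.spl, f.spl]
  lam_lt n := lt_of_lt_of_le (e.lam_lt _) (e.l_strictMono.monotone (f.lam_lt n))
  le_lam n := le_trans (e.l_strictMono.monotone (f.le_lam n)) (e.le_lam _)

end Emb

section step

variable {k : ℕ}

/-- the value of a letter of a variable word at a node -/
def bl (τ : Fin k → Bool) (o : Option ((Fin k → Bool) → Bool)) (b : Bool) : Bool :=
  match o with
  | none => b
  | some a => a τ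

/-- the node of a branch at level `k` -/
def nd (k : ℕ) (x : ℕ → Bool) : Fin k → Bool := fun i => x i

variable (w : ℕ → List (Option ((Fin k → Bool) → Bool)))

/-- the image of a branch above level `k`, as finite lists -/
def SS (x : ℕ → Bool) : ℕ → List Bool
  | 0 => []
  | j + 1 => SS x j ++ (w j).map (fun o => bl (nd k x) o (x (k + j)))

/-- lengths -/
def La : ℕ → ℕ
  | 0 => 0
  | j + 1 => La j + (w j).length

theorem SS_length (x : ℕ → Bool) (j : ℕ) : (SS w x j).length = La w j := by
  induction j with
  | zero => rfl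
  | succ j ih => rw [SS, List.length_append, List.length_map, ih, La]

theorem La_mono {w : ℕ → List (Option ((Fin k → Bool) → Bool))} (hw : ∀ i, none ∈ w i) (j : ℕ) :
    La w j < La w (j + 1) := by
  have h1 : 0 < (w j).length := List.length_pos_of_mem (hw j)
  have h2 : La w (j + 1) = La w j + (w j).length := rfl
  omega

theorem La_strictMono {w : ℕ → List (Option ((Fin k → Bool) → Bool))} (hw : ∀ i, none ∈ w i) :
    StrictMono (La w) := strictMono_nat_of_lt_succ (La_mono hw)

theorem le_La {w : ℕ → List (Option ((Fin k → Bool) → Bool))} (hw : ∀ i, none ∈ w i) (j : ℕ) :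
    j ≤ La w j := (La_strictMono hw).le_apply

theorem SS_getD (x : ℕ → Bool) (j d i : ℕ) (hi : i < La w j) :
    (SS w x (j + d)).getD i false = (SS w x j).getD i false := by
  induction d with
  | zero => rfl
  | succ d ih =>
    rw [← ih, ← Nat.add_assoc, SS]
    apply List.getD_append
    rw [SS_length]
    clear ih
    induction d with
    | zero => exact hi
    | succ d ih2 => 
      rw [← Nat.add_assoc, La]
      omega

theorem SS_getD' (x : ℕ → Bool) (j j' i : ℕ) (hi : i < La w j) (hi' : i < La w j') :
    (SS w x j).getD i false = (SS w x j').getD i false := by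
  rcases le_total j j' with h | h
  · obtain ⟨d, rfl⟩ := Nat.exists_eq_add_of_le h
    exact (SS_getD w x j d i hi).symm
  · obtain ⟨d, rfl⟩ := Nat.exists_eq_add_of_le h
    exact SS_getD w x j' d i hi'

theorem SS_congr (x y : ℕ → Bool) (j : ℕ) (h : ∀ i < k + j, x i = y i) : SS w x j = SS w y j := by
  have hn : nd k x = nd k y := by
    funext i
    exact h i (by have := i.2; omega)
  induction j with
  | zero => rfl
  | succ j ih =>
    rw [SS, SS, ih (fun i hi => h i (by omega)), hn, h (k + j) (by omega)]

/-- the branch map -/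
def FE (x : ℕ → Bool) (i : ℕ) : Bool := if i < k then x i else (SS w x (i + 1 - k)).getD (i - k) false

theorem FE_lt (x : ℕ → Bool) {i : ℕ} (h : i < k) : FE w x i = x i := by simp [FE, h]

theorem FE_ge {w : ℕ → List (Option ((Fin k → Bool) → Bool))} (hw : ∀ i, none ∈ w i)
    (x : ℕ → Bool) (j i : ℕ) (hi : i < La w j) :
    FE w x (k + i) = (SS w x j).getD i false := by
  have h1 : ¬ (k + i < k) := by omega
  have h2 : k + i + 1 - k = i + 1 := by omega
  have h3 : k + i - k = i := by omega
  unfold FE
  rw [if_neg h1, h2, h3]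
  exact SS_getD' w x _ _ i (lt_of_lt_of_le (Nat.lt_succ_self i) (le_La hw (i + 1))) hi

/-- the embedding attached to a sequence of variable words -/
def FF (hw : ∀ i, none ∈ w i) : Emb where
  E := FE w
  l n := if n ≤ k then n else k + La w (n - k)
  lam n := if n < k then n else k + (La w (n - k) + (w (n - k)).idxOf none)
  loc := by
    intro n x y h i hi
    by_cases h1 : n ≤ k
    · rw [if_pos h1] at hi
      rw [FE_lt w x (by omega), FE_lt w y (by omega)]
      exact h i hi
    · rw [if_neg h1] at hi
      by_cases h2 : i < k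
      · rw [FE_lt w x h2, FE_lt w y h2]
        exact h i (by omega)
      · obtain ⟨d, rfl⟩ := Nat.exists_eq_add_of_le (not_lt.1 h2)
        have h3 : d < La w (n - k) := by omega
        rw [FE_ge hw x _ d h3, FE_ge hw y _ d h3, SS_congr w x y (n - k) (fun i hi => h i (by omega))]
  spl := by
    intro n x
    by_cases h1 : n < k
    · rw [if_pos h1, FE_lt w x h1]
    · rw [if_neg h1]
      have h2 : (w (n - k)).idxOf none < (w (n - k)).length := List.idxOf_lt_length_of_mem (hw _)
      have h3 : La w (n - k) + (w (n - k)).idxOf none < La w (n - k + 1) := by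
        rw [La]; omega
      rw [FE_ge hw x _ _ h3, SS, List.getD_append_right _ _ _ _ (by rw [SS_length]; omega), SS_length]
      have h4 : La w (n - k) + (w (n - k)).idxOf none - La w (n - k) = (w (n - k)).idxOf none := by omega
      rw [h4, List.getD_eq_getElem _ _ (by rw [List.length_map]; exact h2), List.getElem_map,
        List.getElem_idxOf h2]
      have h5 : k + (n - k) = n := by omega
      change x (k + (n - k)) = x n
      rw [h5]
  lam_lt := by
    intro n
    by_cases h1 : n < k
    · rw [if_pos h1, if_pos (by omega : n + 1 ≤ k)]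
      omega
    · rw [if_neg h1, if_neg (by omega : ¬ (n + 1 ≤ k))]
      have h2 : (w (n - k)).idxOf none < (w (n - k)).length := List.idxOf_lt_length_of_mem (hw _)
      have h3 : n + 1 - k = n - k + 1 := by omega
      rw [h3, La]
      omega
  le_lam := by
    intro n
    by_cases h1 : n < k
    · rw [if_pos h1, if_pos (by omega : n ≤ k)]
    · rw [if_neg h1]
      by_cases h2 : n ≤ k
      · rw [if_pos h2]; omega
      · rw [if_neg h2]; omega

theorem pw_length (a : ℕ → ((Fin k → Bool) → Bool)) (j : ℕ) :
    (FreeMonoid.toList (pw w a j)).length = La w j := by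
  induction j with
  | zero => rfl
  | succ j ih =>
    rw [pw, FreeMonoid.toList_mul, List.length_append, ih, La]
    unfold sb
    rw [FreeMonoid.toList_ofList, List.length_map]

theorem SS_eq_pw (a : ℕ → ((Fin k → Bool) → Bool)) (x : ℕ → Bool) (ha : ∀ j, a j (nd k x) = x (k + j))
    (j : ℕ) : SS w x j = (FreeMonoid.toList (pw w a j)).map (fun a => a (nd k x)) := by
  induction j with
  | zero => rfl
  | succ j ih =>
    rw [pw, FreeMonoid.toList_mul, List.map_append, SS, ih]
    unfold sb
    rw [FreeMonoid.toList_ofList, List.map_map]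
    refine congrArg₂ _ rfl ?_
    apply List.map_congr_left
    intro o _
    cases o with
    | none => exact (ha j).symm
    | some b => rfl

/-- the branch given by a node and a word, continued by `false` -/
def ext (τ : Fin k → Bool) (u : FreeMonoid ((Fin k → Bool) → Bool)) : ℕ → Bool := fun i =>
  if h : i < k then τ ⟨i, h⟩ else ((FreeMonoid.toList u).map (fun a => a τ)).getD (i - k) false

theorem step (k : ℕ) (r : ℕ → ℕ) (Q : (m : ℕ) → ℕ → (Fin (r m) → (ℕ → Bool)) → Prop)
    (hQ : ∀ m n x y, (∀ i, ∀ j < n, x i j = y i j) → Q m n x → Q m n y) :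
    ∃ F : Emb, (∀ x, ∀ i < k, F.E x i = x i) ∧ (∀ n ≤ k, F.l n = n) ∧
      ∀ m ≤ k, ∀ x y : Fin (r m) → ℕ → Bool, (∀ i, ∀ j < k, x i j = y i j) →
        (∀ i i', (∀ j < k, x i j = x i' j) → i = i') → ∀ n n', k < n → k < n' →
        Q m (F.l n) (fun i => F.E (x i)) → Q m (F.l n') (fun i => F.E (y i)) := by
  classical
  let A := (Fin k → Bool) → Bool
  let κ := (m : Fin (k + 1)) → ((Fin (r m) → (Fin k → Bool)) → Prop)
  let c : FreeMonoid A → κ := fun u m τs => Q m (k + (FreeMonoid.toList u).length)
    (fun i => ext (τs i) u)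
  obtain ⟨w, kk, hw, hc⟩ := inf_hj c
  refine ⟨FF w hw, fun x i hi => FE_lt w x hi, fun n hn => if_pos hn, ?_⟩
  have key : ∀ m (hm : m ≤ k), ∀ x : Fin (r m) → ℕ → Bool,
      (∀ i i', (∀ j < k, x i j = x i' j) → i = i') → ∀ n, k < n →
      (Q m ((FF w hw).l n) (fun i => (FF w hw).E (x i)) ↔
        kk ⟨m, Nat.lt_succ_of_le hm⟩ (fun i => nd k (x i))) := by
    intro m hm x hx n hn
    have hinj : ∀ i i', nd k (x i) = nd k (x i') → i = i' := by
      intro i i' h
      apply hx
      intro j hj
      exact congrFun h ⟨j, hj⟩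
    let a : ℕ → A := fun j τ => if h : ∃ i, nd k (x i) = τ then x h.choose (k + j) else false
    have ha : ∀ i j, a j (nd k (x i)) = x i (k + j) := by
      intro i j
      have hex : ∃ i', nd k (x i') = nd k (x i) := ⟨i, rfl⟩
      have : hex.choose = i := hinj _ _ hex.choose_spec
      simp only [a]
      rw [dif_pos hex, this]
    obtain ⟨j, hj⟩ : ∃ j, n = k + (j + 1) := ⟨n - k - 1, by omega⟩
    have hcj := hc j a
    have h1 : c (pw w a (j + 1)) ⟨m, Nat.lt_succ_of_le hm⟩ (fun i => nd k (x i)) =
        kk ⟨m, Nat.lt_succ_of_le hm⟩ (fun i => nd k (x i)) := by rw [hcj]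
    rw [← h1]
    have hl : (FF w hw).l n = k + (FreeMonoid.toList (pw w a (j + 1))).length := by
      rw [pw_length]
      change (if n ≤ k then n else k + La w (n - k)) = _
      rw [if_neg (by omega), hj]
      congr 2
      omega
    rw [hl]
    have hagree : ∀ i, ∀ p < k + (FreeMonoid.toList (pw w a (j + 1))).length,
        (FF w hw).E (x i) p = ext (nd k (x i)) (pw w a (j + 1)) p := by
      intro i p hp
      by_cases h2 : p < k
      · have e1 : (FF w hw).E (x i) p = x i p := FE_lt w (x i) h2
        rw [e1]
        unfold ext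
        rw [dif_pos h2]
        rfl
      · obtain ⟨d, rfl⟩ := Nat.exists_eq_add_of_le (not_lt.1 h2)
        have h3 : d < La w (j + 1) := by
          rw [pw_length] at hp
          omega
        have e1 : (FF w hw).E (x i) (k + d) = (SS w (x i) (j + 1)).getD d false :=
          FE_ge hw (x i) _ d h3
        rw [e1, SS_eq_pw w a (x i) (ha i)]
        unfold ext
        rw [dif_neg h2]
        congr 1
        omega
    constructor
    · exact hQ m _ _ _ hagree
    · exact hQ m _ _ _ (fun i p hp => (hagree i p hp).symm)
  intro m hm x y hxy hx n n' hn hn' h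
  have hnd : (fun i => nd k (x i)) = fun i => nd k (y i) := by
    funext i j
    exact hxy i j j.2
  have hy : ∀ i i', (∀ j < k, y i j = y i' j) → i = i' := by
    intro i i' h'
    apply hx
    intro j hj
    rw [hxy i j hj, hxy i' j hj]
    exact h' j hj
  rw [key m hm y hy n' hn', ← hnd, ← key m hm x hx n hn]
  exact h

end step

end Pool.Agent.Work.MP_e5ffe1_h93
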