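import Pool.Agent.Work.MP_e5ffe1_lc_helper93.Main

set_option autoImplicit false

namespace Pool.Agent.Work.MP_e5ffe1_h93

open FirstOrder FirstOrder.Language FirstOrder.Ring Filter

attribute [local instance] zRing zOrd zSk rRing rOrd

/-! ### sets definable in the hull are given by terms -/

section hull

variable {I : Type} (a : ℕ → I → ℤ)

/-- The trace on `ℕ` of a definable set of the hull. -/
theorem trace_repr (D : Set (Fin 1 → RR a)) (hD : (Set.univ : Set (RR a)).Definable LL D) :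
    ∃ (idx : Idx) (x : Fin idx.1 → I), Function.Injective x ∧
      ∀ j : ℕ, (fun _ : Fin 1 => (j : RR a)) ∈ D ↔
        ∀ᶠ n in (hyperfilter ℕ : Filter ℕ), PP idx j (fun q => a n (x q)) := by
  classical
  obtain ⟨m, φ, b, hb⟩ := def_repr hD
  have hT : ∀ i, ∃ t, b i = toR a t := fun i => toR_surj a (b i)
  choose T hT using hT
  let F : Finset I := Finset.univ.biUnion (fun l => (T l).varFinset)
  let e' := F.equivFin
  have hsub : ∀ l, ∀ v ∈ (T l).varFinset, v ∈ F := fun l v hv =>
    Finset.mem_biUnion.2 ⟨l, Finset.mem_univ _, hv⟩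
  let T' : Fin m → LS.Term (Fin F.card) := fun l =>
    (T l).restrictVar (fun v => e' ⟨v.1, hsub l v.1 v.2⟩)
  have hT' : ∀ (l : Fin m) (v : I → ℤ), (T' l).realize (fun q => v (e'.symm q).1) = (T l).realize v := by
    intro l v
    apply Term.realize_restrictVar v
    intro v'
    rw [Equiv.symm_apply_apply]
  refine ⟨⟨F.card, m, φ, T'⟩, fun q => (e'.symm q).1, ?_, ?_⟩
  · intro q q' h
    exact e'.symm.injective (Subtype.ext h)
  · intro j
    have hsn : (Fin.snoc b (j : RR a) : Fin (m + 1) → RR a) =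
        fun i => toR a ((Fin.snoc T (tnat j) : Fin (m + 1) → LS.Term I) i) := by
      funext i
      refine Fin.lastCases ?_ (fun p => ?_) i
      · simp only [Fin.snoc_last, toR_nat]
      · simp only [Fin.snoc_castSucc, hT]
    have hsn' : ∀ (v : I → ℤ),
        (fun i => ((Fin.snoc T (tnat j) : Fin (m + 1) → LS.Term I) i).realize v) =
        (Fin.snoc (fun i => (T i).realize v) (j : ℤ) : Fin (m + 1) → ℤ) := by
      intro v
      funext i
      refine Fin.lastCases ?_ (fun p => ?_) i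
      · simp only [Fin.snoc_last, real_nat]
      · simp only [Fin.snoc_castSucc]
    rw [hb, hsn, los]
    apply Filter.eventually_congr
    refine Filter.Eventually.of_forall (fun n => ?_)
    rw [hsn']
    unfold PP
    have h3 : (fun l => (T' l).realize (fun q => a n (e'.symm q).1)) = fun i => (T i).realize (a n) := by
      funext l
      exact hT' l (a n)
    change _ ↔ φ.Realize (M := ℤ) default
      (Fin.snoc (fun l => (T' l).realize (fun q => a n (e'.symm q).1)) (j : ℤ) : Fin (m + 1) → ℤ)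
    rw [h3]

/-- multiplication of terms -/
def mulT {α : Type} (t s : LL.Term α) : LL.Term α :=
  Term.func (l := 2) (Sum.inl ringFunc.mul : LL.Functions 2) ![t, s]

/-- The set of divisors of an element is definable. -/
theorem dvd_def (c : RR a) : (Set.univ : Set (RR a)).Definable LL {v : Fin 1 → RR a | v 0 ∣ c} := by
  rw [Set.definable_iff_exists_formula_sum]
  let φ : LL.Formula ((Set.univ : Set (RR a)) ⊕ Fin 1) :=
    ∃' (BoundedFormula.equal (L := LL) (α := (Set.univ : Set (RR a)) ⊕ Fin 1) (n := 1)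
      (Term.var (Sum.inl (Sum.inl ⟨c, Set.mem_univ c⟩)))
      (mulT (Term.var (Sum.inl (Sum.inr 0))) (Term.var (Sum.inr 0))))
  refine ⟨φ, ?_⟩
  ext v
  change v 0 ∣ c ↔ φ.Realize (Sum.elim (↑) v)
  unfold φ
  rw [Formula.Realize, BoundedFormula.realize_ex]
  constructor
  · rintro ⟨y, hy⟩
    exact ⟨y, hy⟩
  · rintro ⟨y, hy⟩
    exact ⟨y, hy⟩

/-- divisibility as a formula in two variables -/
def dvdF : LL.BoundedFormula Empty 2 :=
  ∃' (BoundedFormula.equal (L := LL) (α := Empty) (n := 3)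
      (Term.var (Sum.inr 0)) (mulT (Term.var (Sum.inr 1)) (Term.var (Sum.inr 2))))

theorem dvd_iff (t : LS.Term I) (j : ℕ) : ((j : RR a) ∣ toR a t) ↔
    ∀ᶠ n in (hyperfilter ℕ : Filter ℕ), (j : ℤ) ∣ t.realize (a n) := by
  have h1 := los a dvdF ![t, tnat j]
  have h2 : dvdF.Realize (M := RR a) default (fun i => toR a ((![t, tnat j] : Fin 2 → LS.Term I) i)) ↔
      ((j : RR a) ∣ toR a t) := by
    unfold dvdF
    rw [BoundedFormula.realize_ex, ← toR_nat]
    constructor
    · rintro ⟨y, hy⟩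
      exact ⟨y, hy⟩
    · rintro ⟨y, hy⟩
      exact ⟨y, hy⟩
  have h3 : ∀ n, dvdF.Realize (M := ℤ) default
      (fun i => ((![t, tnat j] : Fin 2 → LS.Term I) i).realize (a n)) ↔
      ((j : ℤ) ∣ t.realize (a n)) := by
    intro n
    unfold dvdF
    rw [BoundedFormula.realize_ex]
    constructor
    · rintro ⟨y, hy⟩
      have hy' : t.realize (a n) = (tnat j : LS.Term I).realize (a n) * y := hy
      rw [real_nat] at hy'
      exact ⟨y, hy'⟩
    · rintro ⟨y, hy⟩
      refine ⟨y, ?_⟩
      change t.realize (a n) = (tnat j : LS.Term I).realize (a n) * y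
      rw [real_nat]
      exact hy
  rw [← h2, h1]
  simp only [h3]

end hull

/-! ### the theorem -/

/-- Finitely many members of `S` or the whole of `ℕ` are computable from one member of `S`. -/
theorem exists_bound {S : Set (Set ℕ)} (hne : S.Nonempty) (hJ : ∀ X ∈ S, ∀ Y ∈ S, J X Y ∈ S) :
    ∀ (r : ℕ) (x : Fin r → Set ℕ), (∀ q, x q ∈ S ∨ x q = Set.univ) → ∃ Y ∈ S, ∀ q, le (x q) Y := by
  intro r
  induction r with
  | zero =>
    intro x _
    obtain ⟨Y, hY⟩ := hne
    exact ⟨Y, hY, fun q => q.elim0⟩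
  | succ r ih =>
    intro x hx
    obtain ⟨Y, hY, hle⟩ := ih (fun q => x q.succ) (fun q => hx q.succ)
    rcases hx 0 with h0 | h0
    · refine ⟨J (x 0) Y, hJ _ h0 _ hY, fun q => ?_⟩
      refine Fin.cases (le_J_left _ _) (fun p => ?_) q
      exact le_trans' (hle p) (le_J_right _ _)
    · refine ⟨Y, hY, fun q => ?_⟩
      refine Fin.cases ?_ (fun p => hle p) q
      rw [h0]
      exact le_univ Y

theorem main : ∃ C : Set ℕ, ∀ S : Set (Set ℕ), S.Nonempty → (∀ X ∈ S, ∀ Y ∈ S, J X Y ∈ S) →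
    ∃ (R : Type) (_ : CommRing R) (_ : LinearOrder R) (_ : IsStrictOrderedRing R)
      (_ : FirstOrder.Ring.CompatibleRing R)
      (_ : FirstOrder.Language.order.Structure R)
      (_ : FirstOrder.Language.OrderedStructure FirstOrder.Language.order R),
      (∀ x : R, 0 < x → 1 ≤ x) ∧
      (∀ D : Set (Fin 1 → R), (Set.univ : Set R).Definable LL D →
        (fun _ : Fin 1 => (0 : R)) ∈ D →
        (∀ x : R, 0 ≤ x → (fun _ : Fin 1 => x) ∈ D → (fun _ : Fin 1 => x + 1) ∈ D) →
        ∀ x : R, 0 ≤ x → (fun _ : Fin 1 => x) ∈ D) ∧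
      (∃ c : R, ∀ n : ℕ, (n : R) < c) ∧
      (∀ D : Set (Fin 1 → R), (Set.univ : Set R).Definable LL D →
        ∃ Y ∈ S, le {n : ℕ | (fun _ : Fin 1 => (n : R)) ∈ D} (J Y C)) ∧
      (∀ Y ∈ S, ∃ D : Set (Fin 1 → R), (Set.univ : Set R).Definable LL D ∧
        le Y (J {n : ℕ | (fun _ : Fin 1 => (n : R)) ∈ D} C)) := by
  classical
  have hc := countable_idx
  have hne : Nonempty Idx := ⟨⟨0, 0, ⊥, fun i => i.elim0⟩⟩
  obtain ⟨en, hen⟩ := exists_surjective_nat Idx
  obtain ⟨e, he⟩ := exists_lim (fun m => (en (Nat.unpair m).1).1) (QQ en) (QQ_loc en)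
  refine ⟨CC en e, ?_⟩
  intro S hS hJ
  let I : Type := {x : ℕ → Bool // st x ∈ S ∨ st x = Set.univ}
  let a : ℕ → I → ℤ := fun n x => (cod (e.E x.1) (e.l n) : ℤ)
  have hones : st (fun _ => true) = Set.univ := by
    ext n; simp [st]
  let ones : I := ⟨fun _ => true, Or.inr hones⟩
  refine ⟨RR a, inferInstance, inferInstance, inferInstance, rRing a, rOrd a, ⟨fun _ => Iff.rfl⟩,
    rr_discrete a, rr_induction a, ?_, ?_, ?_⟩
  · -- nonstandard
    refine ⟨toR a (Term.var ones), fun N => ?_⟩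
    rw [← toR_nat, toR_lt]
    have h1 : ∀ᶠ n in (hyperfilter ℕ : Filter ℕ), N < n := by
      apply Filter.hyperfilter_le_cofinite
      rw [Nat.cofinite_eq_atTop]
      exact Filter.eventually_gt_atTop N
    refine h1.mono (fun n hn => ?_)
    rw [real_nat, Term.realize_var]
    change (N : ℤ) < (cod (e.E (fun _ => true)) (e.l n) : ℤ)
    have h2 : e.lam N < e.l n := lt_of_lt_of_le (e.lam_lt N) (e.l_strictMono.monotone hn)
    have h3 : Nat.nth Nat.Prime (e.lam N) ∣ cod (e.E (fun _ => true)) (e.l n) :=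
      dvd_cod.2 ⟨h2, e.spl N _⟩
    have h4 := Nat.le_of_dvd (cod_pos _ _) h3
    have h5 := lt_nthp (e.lam N)
    have h6 : N ≤ e.lam N := le_trans (e.le_l N) (e.le_lam N)
    have h7 : N < cod (e.E (fun _ => true)) (e.l n) := by omega
    exact_mod_cast h7
  · -- the standard system is below
    intro D hD
    obtain ⟨idx, x, hx, hj⟩ := trace_repr a D hD
    obtain ⟨Y, hY, hle⟩ := exists_bound hS hJ idx.1 (fun q => st (x q).1) (fun q => (x q).2)
    refine ⟨Y, hY, ?_⟩
    have h1 : {n : ℕ | (fun _ : Fin 1 => (n : RR a)) ∈ D} = {j | ∀ᶠ n in (hyperfilter ℕ : Filter ℕ),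
        PP idx j (fun q => (cod (e.E (x q).1) (e.l n) : ℤ))} := by
      ext j
      exact hj j
    rw [h1]
    exact key_le hen he idx (fun q => (x q).1) (fun q q' h => hx (Subtype.ext h)) Y hle
  · -- and above
    intro Y hY
    let x : ℕ → Bool := fun n => decide (n ∈ Y)
    have hxY : st x = Y := by
      ext n; simp [st, x]
    let xi : I := ⟨x, Or.inl (by rw [hxY]; exact hY)⟩
    refine ⟨_, dvd_def a (toR a (Term.var xi)), ?_⟩
    set X : Set ℕ := {n : ℕ | (fun _ : Fin 1 => (n : RR a)) ∈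
      {v : Fin 1 → RR a | v 0 ∣ toR a (Term.var xi)}} with hX
    have hmem : ∀ k, Nat.nth Nat.Prime (e.lam k) ∈ X ↔ x k = true := by
      intro k
      change ((Nat.nth Nat.Prime (e.lam k) : ℕ) : RR a) ∣ toR a (Term.var xi) ↔ _
      rw [dvd_iff]
      have h1 : ∀ n, k < n → (((Nat.nth Nat.Prime (e.lam k) : ℕ) : ℤ) ∣
          (Term.var xi : LS.Term I).realize (a n) ↔ x k = true) := by
        intro n hn
        rw [Term.realize_var]
        change ((Nat.nth Nat.Prime (e.lam k) : ℕ) : ℤ) ∣ (cod (e.E x) (e.l n) : ℤ) ↔ _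
        rw [Int.natCast_dvd_natCast, dvd_cod]
        have h2 : e.lam k < e.l n := lt_of_lt_of_le (e.lam_lt k) (e.l_strictMono.monotone hn)
        have h3 : e.E x (e.lam k) = x k := e.spl k x
        rw [h3]
        exact ⟨fun h => h.2, fun h => ⟨h2, h⟩⟩
      rw [hyper_const (k := k) (fun n hn => by rw [h1 n hn, h1 (k + 1) (Nat.lt_succ_self k)])]
      exact h1 (k + 1) (Nat.lt_succ_self k)
    rw [le_iff]
    have hXr : TR (orc (J X (CC en e))) (ch X) := le_iff.1 (le_J_left _ _)
    have hCr : TR (orc (J X (CC en e))) (ch (CC en e)) := le_iff.1 (le_J_right _ _)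
    have hf : TR (orc (J X (CC en e))) (fun p => 1 - ch (CC en e) (Nat.pair 1 p)) := by
      have h1 : TR (orc (J X (CC en e))) (fun p => 1 - p) := TR.of_primrec (by
        have := Primrec.nat_sub.comp (Primrec.const 1) Primrec.id
        exact Primrec.nat_iff.1 this)
      exact h1.comp (hCr.comp ((TR.const 1).pair TR.id))
    have hq : TR (orc (J X (CC en e))) (fun k => Nat.nth Nat.Prime (e.lam k)) := by
      apply TR.find hf
      intro k y
      rw [← mem_CC' (en := en) (e := e) k y]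
      by_cases h : Nat.pair 1 (Nat.pair k y) ∈ CC en e
      · rw [ch_of_mem h]
        exact ⟨fun _ => h, fun _ => rfl⟩
      · rw [ch_of_notMem h]
        exact ⟨fun h' => absurd h' (by norm_num), fun h' => absurd h' h⟩
    refine (hXr.comp hq).of_eq (fun k => ?_)
    by_cases h : k ∈ Y
    · have h1 : x k = true := by simp [x, h]
      rw [ch_of_mem h, ch_of_mem ((hmem k).2 h1)]
    · have h1 : ¬ x k = true := by simp [x, h]
      rw [ch_of_notMem h, ch_of_notMem (fun h' => h1 ((hmem k).1 h'))]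

end Pool.Agent.Work.MP_e5ffe1_h93
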