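import Mathlib

set_option autoImplicit false

namespace Pool.Agent.Work.MP_e5ffe1_h93

open Combinatorics

attribute [local instance] Ultrafilter.mul Ultrafilter.semigroup

variable {A : Type}

/-- Substitution of a letter in a variable word. -/
def sb (w : List (Option A)) (a : A) : FreeMonoid A :=
  FreeMonoid.ofList (w.map (fun o => o.getD a))

/-- Finite products of substituted words. -/
def pw (w : ℕ → List (Option A)) (a : ℕ → A) : ℕ → FreeMonoid A
  | 0 => 1
  | n + 1 => pw w a n * sb (w n) (a n)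

/-- Finite products in the other recursion. -/
def sg (w : ℕ → List (Option A)) (a : ℕ → A) : ℕ → ℕ → FreeMonoid A
  | _, 0 => 1
  | i, n + 1 => sb (w i) (a i) * sg w a (i + 1) n

theorem pw_add (w : ℕ → List (Option A)) (a : ℕ → A) (n : ℕ) : ∀ i, pw w a (i + n) = pw w a i * sg w a i n := by
  induction n with
  | zero => intro i; rw [Nat.add_zero, sg, mul_one]
  | succ n ih =>
    intro i
    have h : i + (n + 1) = (i + 1) + n := by omega
    rw [h, ih, sg, pw, mul_assoc]

theorem pw_eq_sg (w : ℕ → List (Option A)) (a : ℕ → A) (n : ℕ) : pw w a n = sg w a 0 n := by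
  have := pw_add w a n 0
  rw [Nat.zero_add] at this
  rw [this, pw, one_mul]

/-- Hales-Jewett for words. -/
theorem hj [Finite A] (κ : Type) [Finite κ] (c : FreeMonoid A → κ) :
    ∃ w : List (Option A), none ∈ w ∧ ∃ k, ∀ a, c (sb w a) = k := by
  obtain ⟨ι, _, h⟩ := Line.exists_mono_in_high_dimension A κ
  let e := Fintype.equivFin ι
  obtain ⟨l, k, hl⟩ := h (fun x => c (FreeMonoid.ofList
    (List.ofFn (fun i : Fin (Fintype.card ι) => x (e.symm i)))))
  refine ⟨List.ofFn (fun i => l.idxFun (e.symm i)), ?_, k, ?_⟩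
  · obtain ⟨i, hi⟩ := l.proper
    rw [List.mem_ofFn]
    exact ⟨e i, by simp [hi]⟩
  · intro a
    have := hl a
    rw [sb, List.map_ofFn]
    exact this

/-- The ultrafilters all whose members contain combinatorial lines. -/
def Rich (A : Type) : Set (Ultrafilter (FreeMonoid A)) :=
  {p | ∀ B ∈ p, ∃ w : List (Option A), none ∈ w ∧ ∀ a, sb w a ∈ B}

theorem rich_nonempty [Finite A] : (Rich A).Nonempty := by
  classical
  let F : Set (Set (FreeMonoid A)) := {B | ¬ ∃ w : List (Option A), none ∈ w ∧ ∀ a, sb w a ∈ Bᶜ}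
  have hF : (Filter.generate F).NeBot := by
    rw [Filter.generate_neBot_iff]
    intro t ht htf
    by_contra hcon
    rw [Set.not_nonempty_iff_eq_empty] at hcon
    have h1 : ∀ u : FreeMonoid A, ∃ B : t, u ∉ (B : Set (FreeMonoid A)) := by
      intro u
      by_contra h2
      push Not at h2
      have : u ∈ ⋂₀ t := Set.mem_sInter.2 (fun B hB => h2 ⟨B, hB⟩)
      rw [hcon] at this
      exact this
    choose c hc using h1
    have : Finite t := htf
    obtain ⟨w, hw, k, hk⟩ := hj t c
    apply ht k.2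
    exact ⟨w, hw, fun a => by rw [← hk a]; exact hc _⟩
  let p : Ultrafilter (FreeMonoid A) := Ultrafilter.of (Filter.generate F)
  refine ⟨p, ?_⟩
  intro B hB
  by_contra hcon
  have h1 : Bᶜ ∈ F := by
    change ¬ ∃ w : List (Option A), none ∈ w ∧ ∀ a, sb w a ∈ Bᶜᶜ
    rw [compl_compl]
    exact hcon
  have h2 : Bᶜ ∈ p := Ultrafilter.of_le (Filter.generate F) (Filter.mem_generate_of_mem h1)
  exact (Ultrafilter.compl_mem_iff_notMem.1 h2) hB

theorem rich_closed : IsClosed (Rich A) := by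
  have : Rich A = ⋂ B ∈ {B : Set (FreeMonoid A) | ¬ ∃ w : List (Option A), none ∈ w ∧ ∀ a, sb w a ∈ B},
      {p : Ultrafilter (FreeMonoid A) | Bᶜ ∈ p} := by
    ext p
    simp only [Set.mem_iInter]
    constructor
    · intro hp B hB
      change Bᶜ ∈ p
      rw [Ultrafilter.compl_mem_iff_notMem]
      intro h
      exact hB (hp B h)
    · intro hp B hB
      by_contra hcon
      have := hp B hcon
      change Bᶜ ∈ p at this
      rw [Ultrafilter.compl_mem_iff_notMem] at this
      exact this hB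
  rw [this]
  exact isClosed_biInter (fun B _ => ultrafilter_isClosed_basic _)

theorem sb_append (w : List (Option A)) (v : FreeMonoid A) (a : A) :
    sb (w ++ (FreeMonoid.toList v).map some) a = sb w a * v := by
  unfold sb
  rw [List.map_append, List.map_map]
  have : (FreeMonoid.toList v).map ((fun o : Option A => o.getD a) ∘ some) = FreeMonoid.toList v := by
    have h : ((fun o : Option A => o.getD a) ∘ some) = id := rfl
    rw [h, List.map_id]
  rw [this]
  rfl

theorem exists_idem [Finite A] : ∃ p : Ultrafilter (FreeMonoid A), p ∈ Rich A ∧ p * p = p := by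
  refine exists_idempotent_in_compact_subsemigroup (fun r => Ultrafilter.continuous_mul_left r) (Rich A)
    rich_nonempty rich_closed.isCompact ?_
  intro p hp q hq B hB
  have h1 : ∀ᶠ u in (p : Filter (FreeMonoid A)), ∀ᶠ v in (q : Filter (FreeMonoid A)), u * v ∈ B :=
    (Ultrafilter.eventually_mul p q (fun x => x ∈ B)).1 hB
  obtain ⟨w, hw, hw'⟩ := hp _ h1
  have h2 : ∀ᶠ v in (q : Filter (FreeMonoid A)), ∀ a, sb w a * v ∈ B := Filter.eventually_all.2 hw'
  obtain ⟨v, hv⟩ := h2.exists
  refine ⟨w ++ (FreeMonoid.toList v).map some, List.mem_append_left _ hw, fun a => ?_⟩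
  rw [sb_append]
  exact hv a

theorem inf_hj [Finite A] {κ : Type} [Finite κ] (c : FreeMonoid A → κ) :
    ∃ (w : ℕ → List (Option A)) (k : κ), (∀ i, none ∈ w i) ∧
      ∀ (n : ℕ) (a : ℕ → A), c (pw w a (n + 1)) = k := by
  classical
  obtain ⟨p, hp, hpp⟩ := exists_idem (A := A)
  have hk : ∃ k, c ⁻¹' {k} ∈ p := by
    obtain ⟨k, hk⟩ := Ultrafilter.eq_pure_of_finite (p.map c)
    refine ⟨k, ?_⟩
    have : {k} ∈ p.map c := by rw [hk]; exact Set.mem_singleton k
    exact this
  obtain ⟨k, hk⟩ := hk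
  have step : ∀ B : {B : Set (FreeMonoid A) // B ∈ p}, ∃ w : List (Option A), none ∈ w ∧
      (∀ a, sb w a ∈ B.1) ∧ ({v | ∀ a, sb w a * v ∈ B.1} ∩ B.1) ∈ p := by
    rintro ⟨B, hB⟩
    have hB2 : B ∈ p * p := by rw [hpp]; exact hB
    have h1 : ∀ᶠ u in (p : Filter (FreeMonoid A)), ∀ᶠ v in (p : Filter (FreeMonoid A)), u * v ∈ B :=
      (Ultrafilter.eventually_mul p p (fun x => x ∈ B)).1 hB2
    obtain ⟨w, hw, hw'⟩ := hp _ (Filter.inter_mem hB h1)
    refine ⟨w, hw, fun a => (hw' a).1, ?_⟩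
    have h2 : ∀ᶠ v in (p : Filter (FreeMonoid A)), ∀ a, sb w a * v ∈ B :=
      Filter.eventually_all.2 (fun a => (hw' a).2)
    exact Filter.inter_mem h2 hB
  choose W hW1 hW2 hW3 using step
  let B : ℕ → {B : Set (FreeMonoid A) // B ∈ p} := fun n => Nat.rec ⟨c ⁻¹' {k}, hk⟩
    (fun _ B => ⟨{v | ∀ a, sb (W B) a * v ∈ B.1} ∩ B.1, hW3 B⟩) n
  have hBs : ∀ n, (B (n + 1)).1 = {v | ∀ a, sb (W (B n)) a * v ∈ (B n).1} ∩ (B n).1 := fun n => rfl
  refine ⟨fun n => W (B n), k, fun n => hW1 _, ?_⟩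
  have key : ∀ (n : ℕ) (a : ℕ → A) (i : ℕ), sg (fun n => W (B n)) a i (n + 1) ∈ (B i).1 := by
    intro n a
    induction n with
    | zero =>
      intro i
      rw [sg, sg, mul_one]
      exact hW2 (B i) (a i)
    | succ n ih =>
      intro i
      rw [sg]
      have h := ih (i + 1)
      rw [hBs] at h
      exact h.1 (a i)
  intro n a
  rw [pw_eq_sg]
  exact key n a 0

end Pool.Agent.Work.MP_e5ffe1_h93
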