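import Pool.Agent.Work.MP_e5ffe1_lc_helper93.Emb

set_option autoImplicit false

namespace Pool.Agent.Work.MP_e5ffe1_h93

/-- Homogeneity of an embedding for the colouring number `m` above the level `k`. -/
def Hom (r : ℕ → ℕ) (Q : (m : ℕ) → ℕ → (Fin (r m) → (ℕ → Bool)) → Prop) (e : Emb) (k m : ℕ) : Prop :=
  ∀ x y : Fin (r m) → ℕ → Bool, (∀ i, ∀ j < k, x i j = y i j) →
    (∀ i i', (∀ j < k, x i j = x i' j) → i = i') → ∀ n n', k < n → k < n' →
    Q m (e.l n) (fun i => e.E (x i)) → Q m (e.l n') (fun i => e.E (y i))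

theorem exists_lim (r : ℕ → ℕ) (Q : (m : ℕ) → ℕ → (Fin (r m) → (ℕ → Bool)) → Prop)
    (hQ : ∀ m n x y, (∀ i, ∀ j < n, x i j = y i j) → Q m n x → Q m n y) :
    ∃ e : Emb, ∀ k, ∀ m ≤ k, Hom r Q e k m := by
  classical
  have hstep : ∀ (k : ℕ) (e : Emb), ∃ F : Emb, (∀ x, ∀ i < k, F.E x i = x i) ∧ (∀ n ≤ k, F.l n = n) ∧
      ∀ m ≤ k, Hom r Q (e.comp F) k m := by
    intro k e
    obtain ⟨F, h1, h2, h3⟩ := step k r (fun m n x => Q m (e.l n) (fun i => e.E (x i)))
      (fun m n x y h h' => hQ m _ _ _ (fun i j hj => e.loc n (x i) (y i) (h i) j hj) h')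
    exact ⟨F, h1, h2, h3⟩
  choose F hF1 hF2 hF3 using hstep
  let s : ℕ → Emb := fun n => Nat.rec Emb.id (fun k e => e.comp (F k e)) n
  have hs : ∀ k, s (k + 1) = (s k).comp (F k (s k)) := fun k => rfl
  have hG : ∀ k d, ∃ G : Emb, s (k + d) = (s k).comp G ∧ (∀ x, ∀ i < k, G.E x i = x i) ∧
      ∀ j ≤ k, G.l j = j := by
    intro k d
    induction d with
    | zero => exact ⟨Emb.id, rfl, fun _ _ _ => rfl, fun _ _ => rfl⟩
    | succ d ih =>
      obtain ⟨G, h1, h2, h3⟩ := ih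
      refine ⟨G.comp (F (k + d) (s (k + d))), ?_, ?_, ?_⟩
      · rw [← Nat.add_assoc, hs, h1]
        rfl
      · intro x i hi
        have e1 : G.E ((F (k + d) (s (k + d))).E x) i = (F (k + d) (s (k + d))).E x i := h2 _ i hi
        exact e1.trans (hF1 _ _ x i (by omega))
      · intro j hj
        have e1 : (F (k + d) (s (k + d))).l j = j := hF2 _ _ j (by omega)
        change G.l ((F (k + d) (s (k + d))).l j) = j
        rw [e1]
        exact h3 j hj
  have hlam : ∀ (G : Emb) (k : ℕ), (∀ j ≤ k, G.l j = j) → ∀ j < k, G.lam j = j := by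
    intro G k h j hj
    have e1 := G.le_lam j
    have e2 := G.lam_lt j
    rw [h j (by omega)] at e1
    rw [h (j + 1) (by omega)] at e2
    omega
  -- agreement
  have agE : ∀ k N, k ≤ N → ∀ x, ∀ i < (s k).l k, (s N).E x i = (s k).E x i := by
    intro k N hkN x i hi
    obtain ⟨d, rfl⟩ := Nat.exists_eq_add_of_le hkN
    obtain ⟨G, h1, h2, h3⟩ := hG k d
    rw [h1]
    exact (s k).loc k (G.E x) x (h2 x) i hi
  have agl : ∀ k N, k ≤ N → ∀ j ≤ k, (s N).l j = (s k).l j := by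
    intro k N hkN j hj
    obtain ⟨d, rfl⟩ := Nat.exists_eq_add_of_le hkN
    obtain ⟨G, h1, h2, h3⟩ := hG k d
    rw [h1]
    change (s k).l (G.l j) = _
    rw [h3 j hj]
  have aglam : ∀ k N, k ≤ N → ∀ j < k, (s N).lam j = (s k).lam j := by
    intro k N hkN j hj
    obtain ⟨d, rfl⟩ := Nat.exists_eq_add_of_le hkN
    obtain ⟨G, h1, h2, h3⟩ := hG k d
    rw [h1]
    change (s k).lam (G.lam j) = _
    rw [hlam G k h3 j hj]
  have hE : ∀ n x, ∀ i < (s n).l n, (s (i + 1)).E x i = (s n).E x i := by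
    intro n x i hi
    have h1 : i < (s (i + 1)).l (i + 1) := lt_of_lt_of_le (Nat.lt_succ_self i) ((s (i + 1)).le_l _)
    rcases le_total (i + 1) n with h | h
    · exact (agE (i + 1) n h x i h1).symm
    · exact agE n (i + 1) h x i hi
  let e : Emb :=
    { E := fun x i => (s (i + 1)).E x i
      l := fun n => (s n).l n
      lam := fun n => (s (n + 1)).lam n
      loc := by
        intro n x y h i hi
        rw [hE n x i hi, hE n y i hi]
        exact (s n).loc n x y h i hi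
      spl := by
        intro n x
        have h1 : (s (n + 1)).lam n < (s (n + 1)).l (n + 1) := (s (n + 1)).lam_lt n
        rw [hE (n + 1) x _ h1]
        exact (s (n + 1)).spl n x
      lam_lt := fun n => (s (n + 1)).lam_lt n
      le_lam := by
        intro n
        rw [← agl n (n + 1) (Nat.le_succ n) n (le_refl n)]
        exact (s (n + 1)).le_lam n }
  refine ⟨e, ?_⟩
  intro k m hm x y hxy hx n n' hn hn' h
  have key : ∀ n, k < n → ∃ G : Emb, (∀ x, ∀ i < k + 1, G.E x i = x i) ∧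
      (s n).E = (fun x => (s (k + 1)).E (G.E x)) ∧ (s n).l n = (s (k + 1)).l (G.l n) := by
    intro n hn
    obtain ⟨d, rfl⟩ := Nat.exists_eq_add_of_le (Nat.succ_le_of_lt hn)
    obtain ⟨G, h1, h2, h3⟩ := hG (k + 1) d
    exact ⟨G, h2, by rw [show k.succ + d = k + 1 + d from rfl, h1]; rfl,
      by rw [show k.succ + d = k + 1 + d from rfl, h1]; rfl⟩
  obtain ⟨G, g1, g2, g3⟩ := key n hn
  obtain ⟨G', g1', g2', g3'⟩ := key n' hn'
  have h1 : Q m ((s n).l n) (fun i => (s n).E (x i)) :=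
    hQ m _ _ _ (fun i j hj => hE n (x i) j hj) h
  rw [g3] at h1
  rw [g2] at h1
  have h2 := hF3 k (s k) m hm (fun i => G.E (x i)) (fun i => G'.E (y i))
    (fun i j hj => by rw [g1 (x i) j (by omega), g1' (y i) j (by omega)]; exact hxy i j hj)
    (fun i i' hii => hx i i' (fun j hj => by
      have := hii j hj
      rwa [g1 (x i) j (by omega), g1 (x i') j (by omega)] at this))
    (G.l n) (G'.l n') (lt_of_lt_of_le hn (G.le_l n)) (lt_of_lt_of_le hn' (G'.le_l n')) h1
  have h3 : Q m ((s n').l n') (fun i => (s n').E (y i)) := by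
    rw [g3', g2']
    exact h2
  exact hQ m _ _ _ (fun i j hj => (hE n' (y i) j hj).symm) h3

end Pool.Agent.Work.MP_e5ffe1_h93
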