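import Pool.Agent.Work.MP_e5ffe1_lc_helper93.Lim
import Pool.Agent.Work.MP_e5ffe1_lc_helper93.Arith
import Pool.Agent.Work.MP_e5ffe1_lc_helper93.Comp

set_option autoImplicit false

namespace Pool.Agent.Work.MP_e5ffe1_h93

open FirstOrder FirstOrder.Language FirstOrder.Ring Filter

attribute [local instance] zRing zOrd zSk rRing rOrd

/-! ### countability of the set of colourings -/

theorem countable_LLfun (l : ℕ) : Countable (LL.Functions l) := by
  have h0 : Countable Language.ring.Symbols := Finite.to_countable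
  have h1 : Countable (Language.ring.Functions l) := by
    have hinj : Function.Injective (fun f : Language.ring.Functions l =>
        (Sum.inl ⟨l, f⟩ : Language.ring.Symbols)) := by
      intro f g h
      have := Sum.inl.inj h
      exact eq_of_heq (Sigma.mk.inj_iff.1 this).2
    exact hinj.countable
  have h2 : Countable (Language.order.Functions l) := by
    have : IsEmpty (Language.order.Functions l) := ⟨fun f => f.elim⟩
    infer_instance
  exact inferInstanceAs (Countable (Language.ring.Functions l ⊕ Language.order.Functions l))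

theorem countable_LLrel (l : ℕ) : Countable (LL.Relations l) := by
  have h1 : Countable (Language.ring.Relations l) := by
    have : IsEmpty (Language.ring.Relations l) := ⟨fun f => f.elim⟩
    infer_instance
  have h2 : Countable (Language.order.Relations l) := by
    have : Subsingleton (Language.order.Relations l) := inferInstance
    infer_instance
  exact inferInstanceAs (Countable (Language.ring.Relations l ⊕ Language.order.Relations l))

theorem countable_LLsym : Countable LL.Symbols := by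
  have h1 := countable_LLfun
  have h2 := countable_LLrel
  exact inferInstanceAs (Countable ((Σ l, LL.Functions l) ⊕ (Σ l, LL.Relations l)))

theorem countable_form (m : ℕ) : Countable (LL.BoundedFormula Empty m) := by
  have h := countable_LLsym
  have h1 : Countable (Σ n, LL.BoundedFormula Empty n) := inferInstance
  have hinj : Function.Injective (fun φ : LL.BoundedFormula Empty m =>
      (⟨m, φ⟩ : Σ n, LL.BoundedFormula Empty n)) := by
    intro f g h
    exact eq_of_heq (Sigma.mk.inj_iff.1 h).2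
  exact hinj.countable

theorem countable_term (r : ℕ) : Countable (LS.Term (Fin r)) := by
  have h1 : ∀ l, Countable (LS.Functions l) := by
    intro l
    have h2 := countable_LLfun l
    have h3 : Countable (SK.Functions l) := countable_form (l + 1)
    exact inferInstanceAs (Countable (LL.Functions l ⊕ SK.Functions l))
  infer_instance

/-- Indices of the families of colourings. -/
abbrev Idx : Type := Σ r : ℕ, Σ m : ℕ, LL.BoundedFormula Empty (m + 1) × (Fin m → LS.Term (Fin r))

theorem countable_idx : Countable Idx := by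
  have h1 := countable_form
  have h2 := countable_term
  infer_instance

/-- The relation number `j` of an index. -/
def PP (i : Idx) (j : ℕ) (v : Fin i.1 → ℤ) : Prop :=
  i.2.2.1.Realize (M := ℤ) default
    (Fin.snoc (fun l => (i.2.2.2 l).realize v) (j : ℤ) : Fin (i.2.1 + 1) → ℤ)

/-! ### integer codes of finite sequences -/

/-- The product of the primes number `i < n` with `x i = true`. -/
noncomputable def cod (x : ℕ → Bool) (n : ℕ) : ℕ :=
  ∏ i ∈ (Finset.range n).filter (fun i => x i = true), Nat.nth Nat.Prime i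

theorem cod_congr {x y : ℕ → Bool} {n : ℕ} (h : ∀ i < n, x i = y i) : cod x n = cod y n := by
  unfold cod
  apply Finset.prod_congr _ (fun _ _ => rfl)
  apply Finset.filter_congr
  intro i hi
  rw [h i (Finset.mem_range.1 hi)]

theorem nthp (i : ℕ) : (Nat.nth Nat.Prime i).Prime := Nat.prime_nth_prime i

theorem dvd_cod {x : ℕ → Bool} {n i : ℕ} : Nat.nth Nat.Prime i ∣ cod x n ↔ i < n ∧ x i = true := by
  unfold cod
  rw [Prime.dvd_finsetProd_iff (nthp i).prime]
  constructor
  · rintro ⟨j, hj, hd⟩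
    rw [Finset.mem_filter, Finset.mem_range] at hj
    have h1 := (Nat.prime_dvd_prime_iff_eq (nthp i) (nthp j)).1 hd
    have h2 := Nat.nth_injective Nat.infinite_setOfPred_prime h1
    rw [h2]; exact hj
  · intro h
    exact ⟨i, by rw [Finset.mem_filter, Finset.mem_range]; exact h, dvd_refl _⟩

theorem cod_pos (x : ℕ → Bool) (n : ℕ) : 0 < cod x n := Finset.prod_pos (fun i _ => (nthp i).pos)

theorem lt_nthp (i : ℕ) : i < Nat.nth Nat.Prime i := by
  have h : StrictMono (Nat.nth Nat.Prime) := Nat.nth_strictMono Nat.infinite_setOfPred_prime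
  induction i with
  | zero => exact (nthp 0).pos
  | succ i ih => exact lt_of_le_of_lt ih (h (Nat.lt_succ_self i))

/-! ### the colourings -/

section

variable (en : ℕ → Idx)

/-- The colouring number `m`. -/
def QQ (m n : ℕ) (x : Fin (en (Nat.unpair m).1).1 → (ℕ → Bool)) : Prop :=
  PP (en (Nat.unpair m).1) (Nat.unpair m).2 (fun l => (cod (x l) n : ℤ))

theorem QQ_loc (m n : ℕ) (x y : Fin (en (Nat.unpair m).1).1 → (ℕ → Bool))
    (h : ∀ i, ∀ j < n, x i j = y i j) (hx : QQ en m n x) : QQ en m n y := by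
  unfold QQ at hx ⊢
  have : (fun l => (cod (x l) n : ℤ)) = fun l => (cod (y l) n : ℤ) := by
    funext l
    rw [cod_congr (h l)]
  rw [← this]; exact hx

variable (e : Emb)

/-- The real `C`. -/
noncomputable def CC : Set ℕ :=
  {N | ∃ (m k : ℕ) (x : Fin (en (Nat.unpair m).1).1 → (ℕ → Bool)), m ≤ k ∧
    (∀ i i', (∀ j < k, x i j = x i' j) → i = i') ∧
    N = Nat.pair 0 (Nat.pair m (Nat.pair k (tp _ (fun l => rs (x l) k)))) ∧
    QQ en m (e.l (k + 1)) (fun i => e.E (x i))} ∪
  {N | ∃ k, N = Nat.pair 1 (Nat.pair k (Nat.nth Nat.Prime (e.lam k)))}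

variable {en e}

theorem mem_CC (he : ∀ k, ∀ m ≤ k, Hom (fun m => (en (Nat.unpair m).1).1) (QQ en) e k m)
    (m k : ℕ) (i0 : ℕ) (h : (Nat.unpair m).1 = i0) (x : Fin (en i0).1 → (ℕ → Bool)) (hm : m ≤ k)
    (hx : ∀ i i', (∀ j < k, x i j = x i' j) → i = i') :
    Nat.pair 0 (Nat.pair m (Nat.pair k (tp _ (fun l => rs (x l) k)))) ∈ CC en e ↔
      PP (en i0) (Nat.unpair m).2 (fun l => (cod (e.E (x l)) (e.l (k + 1)) : ℤ)) := by
  subst h
  constructor
  · rintro (⟨m', k', x', hm', hx', hN, hQ⟩ | ⟨k', hN⟩)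
    · have h1 := (Nat.pair_eq_pair.1 hN).2
      obtain ⟨h2, h3⟩ := Nat.pair_eq_pair.1 h1
      subst h2
      obtain ⟨h4, h5⟩ := Nat.pair_eq_pair.1 h3
      subst h4
      have h6 := tp_inj _ _ _ h5
      have h7 : ∀ i, ∀ j < k, x' i j = x i j := by
        intro i
        exact rs_inj k (congrFun h6 i).symm
      exact he k m hm x' x h7 hx' (k + 1) (k + 1) (Nat.lt_succ_self k) (Nat.lt_succ_self k) hQ
    · exact absurd (Nat.pair_eq_pair.1 hN).1 (by norm_num)
  · intro hP
    exact Or.inl ⟨m, k, x, hm, hx, rfl, hP⟩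

theorem mem_CC' (k y : ℕ) : Nat.pair 1 (Nat.pair k y) ∈ CC en e ↔ y = Nat.nth Nat.Prime (e.lam k) := by
  constructor
  · rintro (⟨m', k', x', hm', hx', hN, hQ⟩ | ⟨k', hN⟩)
    · exact absurd (Nat.pair_eq_pair.1 hN).1 (by norm_num)
    · obtain ⟨h1, h2⟩ := Nat.pair_eq_pair.1 (Nat.pair_eq_pair.1 hN).2
      rw [h2, h1]
  · rintro rfl
    exact Or.inr ⟨k, rfl⟩

theorem hyper_const {p : ℕ → Prop} {k : ℕ} (h : ∀ n, k < n → (p n ↔ p (k + 1))) :
    (∀ᶠ n in (hyperfilter ℕ : Filter ℕ), p n) ↔ p (k + 1) := by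
  have h1 : ∀ᶠ n in (hyperfilter ℕ : Filter ℕ), k < n := by
    apply Filter.hyperfilter_le_cofinite
    rw [Nat.cofinite_eq_atTop]
    exact Filter.eventually_gt_atTop k
  constructor
  · intro h2
    obtain ⟨n, hn1, hn2⟩ := (h1.and h2).exists
    exact (h n hn1).1 hn2
  · intro h2
    exact h1.mono (fun n hn => (h n hn).2 h2)

/-- Sets coded by terms are computable from the branches and `C`. -/
theorem key_le (hen : Function.Surjective en)
    (he : ∀ k, ∀ m ≤ k, Hom (fun m => (en (Nat.unpair m).1).1) (QQ en) e k m)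
    (idx : Idx) (x : Fin idx.1 → (ℕ → Bool)) (hx : Function.Injective x) (Y : Set ℕ)
    (hY : ∀ q, le (st (x q)) Y) :
    le {j | ∀ᶠ n in (hyperfilter ℕ : Filter ℕ), PP idx j (fun q => (cod (e.E (x q)) (e.l n) : ℤ))}
      (J Y (CC en e)) := by
  classical
  obtain ⟨i0, rfl⟩ := hen idx
  -- a level that separates the branches
  have hk0 : ∃ k0, ∀ i i', (∀ j < k0, x i j = x i' j) → i = i' := by
    have h1 : ∀ p : Fin (en i0).1 × Fin (en i0).1, ∃ j, p.1 ≠ p.2 → x p.1 j ≠ x p.2 j := by
      rintro ⟨i, i'⟩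
      by_cases h : i = i'
      · exact ⟨0, fun h' => absurd h h'⟩
      · have : x i ≠ x i' := fun h' => h (hx h')
        obtain ⟨j, hj⟩ := Function.ne_iff.1 this
        exact ⟨j, fun _ => hj⟩
    choose f hf using h1
    refine ⟨Finset.univ.sup f + 1, fun i i' h => ?_⟩
    by_contra hne
    refine hf (i, i') hne (h _ ?_)
    exact Nat.lt_succ_of_le (Finset.le_sup (f := f) (Finset.mem_univ (i, i')))
  obtain ⟨k0, hk0⟩ := hk0
  have hsep : ∀ k, k0 ≤ k → ∀ i i', (∀ j < k, x i j = x i' j) → i = i' := fun k hk i i' h =>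
    hk0 i i' (fun j hj => h j (lt_of_lt_of_le hj hk))
  let kk : ℕ → ℕ := fun j => max k0 (Nat.pair i0 j)
  let N : ℕ → ℕ := fun j => Nat.pair 0 (Nat.pair (Nat.pair i0 j) (Nat.pair (kk j)
    (tp _ (fun l => rs (x l) (kk j)))))
  have hmem : ∀ j, (∀ᶠ n in (hyperfilter ℕ : Filter ℕ),
      PP (en i0) j (fun q => (cod (e.E (x q)) (e.l n) : ℤ))) ↔ N j ∈ CC en e := by
    intro j
    have hm : Nat.pair i0 j ≤ kk j := le_max_right _ _
    have hk : k0 ≤ kk j := le_max_left _ _
    have h1 := mem_CC he (Nat.pair i0 j) (kk j) i0 (by rw [Nat.unpair_pair]) x hm (hsep _ hk)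
    rw [h1, Nat.unpair_pair]
    apply hyper_const (k := kk j)
    intro n hn
    have haux : ∀ m : ℕ, ∀ i1, (Nat.unpair m).1 = i1 → ∀ (x : Fin (en i1).1 → (ℕ → Bool)), m ≤ kk j →
        (∀ i i', (∀ p < kk j, x i p = x i' p) → i = i') →
        (PP (en i1) (Nat.unpair m).2 (fun q => (cod (e.E (x q)) (e.l n) : ℤ)) ↔
          PP (en i1) (Nat.unpair m).2 (fun q => (cod (e.E (x q)) (e.l (kk j + 1)) : ℤ))) := by
      intro m i1 hi x hm hx
      subst hi
      constructor
      · exact he (kk j) m hm x x (fun _ _ _ => rfl) hx n (kk j + 1) hn (Nat.lt_succ_self _)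
      · exact he (kk j) m hm x x (fun _ _ _ => rfl) hx (kk j + 1) n (Nat.lt_succ_self _) hn
    have h2 := haux (Nat.pair i0 j) i0 (by rw [Nat.unpair_pair]) x hm (hsep _ hk)
    rw [Nat.unpair_pair] at h2
    exact h2
  rw [le_iff]
  have hC : TR (orc (J Y (CC en e))) (ch (CC en e)) := le_iff.1 (le_J_right _ _)
  have hxq : ∀ q, TR (orc (J Y (CC en e))) (ch (st (x q))) := fun q =>
    le_iff.1 (le_trans' (hY q) (le_J_left _ _))
  have hpair : TR (orc (J Y (CC en e))) (fun j => Nat.pair i0 j) := (TR.const i0).pair TR.id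
  have hmax : TR (orc (J Y (CC en e))) (fun j => max k0 j) := TR.of_primrec (by
    have := Primrec.nat_max.comp (Primrec.const k0) Primrec.id
    exact Primrec.nat_iff.1 this)
  have hkk : TR (orc (J Y (CC en e))) kk := hmax.comp hpair
  have hN : TR (orc (J Y (CC en e))) N :=
    (TR.const 0).pair (hpair.pair (hkk.pair (tp_TR _ (fun l j => rs (x l) (kk j))
      (fun l => (rs_TR (hxq l)).comp hkk))))
  refine (hC.comp hN).of_eq (fun j => ?_)
  by_cases h : N j ∈ CC en e
  · rw [ch_of_mem h]
    exact (ch_of_mem ((hmem j).2 h)).symm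
  · rw [ch_of_notMem h]
    exact (ch_of_notMem (fun h' => h ((hmem j).1 h'))).symm

end

end Pool.Agent.Work.MP_e5ffe1_h93
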